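import Mathlib
import Pool.Agent.H568.LB.Stm
import Pool.Graph.R_pool_sql_team_seeded_63374d34.N792.QB

/-!
Project LB, task BLK: the double large sieve for blocks of frequencies.
-/

set_option autoImplicit false

open Finset Filter Topology Pool.Agent.N792 Pool.Agent.N791.U Pool.Agent.N792.RX5 Pool.Agent.H568
  Pool.Agent.H568.LB
open Pool.Agent.H469R2.NK (e)

namespace Pool.Agent.H568.LB.PBLK

/-- one class of the `r` modulo `4 a` -/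
theorem blk_class (hQ1 : Q1) (a H J K ρ : ℕ) (ha : 1 ≤ a) (hH : 1 ≤ H) (hHJ : H ≤ J)
    (haJ : 4 * a ≤ J) (hJK : J ≤ K) (R S : Finset ℕ) (hR : R ⊆ Ioc J (2 * J))
    (hRc : ∀ r ∈ R, r ≡ ρ [MOD 4 * a]) (hS : S ⊆ Ioc K (2 * K)) (ω : ℕ → ℂ)
    (hω : ∀ h, ‖ω h‖ ≤ 1) :
    ‖∑ h ∈ Ico H (2 * H), ω h * ∑ r ∈ R, ∑ s ∈ S, e (h / √(a : ℝ) * (√(r : ℝ) * √(s : ℝ)))‖ ^ 2 ≤
      76800 * (((H : ℝ) * J + (H : ℝ) ^ 3) * (K * (H * √((J : ℝ) * K) + K))) := by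
  have haR : (1 : ℝ) ≤ a := by exact_mod_cast ha
  have hHR : (1 : ℝ) ≤ H := by exact_mod_cast hH
  have hHJR : (H : ℝ) ≤ J := by exact_mod_cast hHJ
  have hJKR : (J : ℝ) ≤ K := by exact_mod_cast hJK
  have hJ0 : (0 : ℝ) < J := by linarith
  have hK0 : (0 : ℝ) < K := by linarith
  obtain ⟨j, hj⟩ : ∃ j : ℝ, j = √(J : ℝ) := ⟨_, rfl⟩
  obtain ⟨k, hk⟩ : ∃ k : ℝ, k = √(K : ℝ) := ⟨_, rfl⟩
  obtain ⟨w, hw⟩ : ∃ w : ℝ, w = √(2 : ℝ) := ⟨_, rfl⟩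
  obtain ⟨c, hc⟩ : ∃ c : ℝ, c = √(a : ℝ) := ⟨_, rfl⟩
  have hj0 : 0 < j := by rw [hj]; exact Real.sqrt_pos.2 hJ0
  have hk0 : 0 < k := by rw [hk]; exact Real.sqrt_pos.2 hK0
  have hw0 : 0 < w := by rw [hw]; positivity
  have hc1 : 1 ≤ c := by rw [hc, Real.one_le_sqrt]; exact haR
  have hc0 : 0 < c := by linarith
  have hcc : c * c = a := by rw [hc]; exact Real.mul_self_sqrt (by linarith)
  have hca : c ≤ a := by rw [← hcc]; exact le_mul_of_one_le_left hc0.le hc1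
  have hjj : j * j = J := by rw [hj]; exact Real.mul_self_sqrt hJ0.le
  have hkk : k * k = K := by rw [hk]; exact Real.mul_self_sqrt hK0.le
  have hww : w * w = 2 := by rw [hw]; exact Real.mul_self_sqrt (by norm_num)
  have hjk : j ≤ k := by rw [hj, hk]; exact Real.sqrt_le_sqrt hJKR
  have hP : √((J : ℝ) * K) = j * k := by rw [hj, hk]; exact Real.sqrt_mul hJ0.le _
  have hsle : ∀ s : ℕ, s ≤ 2 * K → √(s : ℝ) ≤ w * k := by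
    intro s hs
    rw [hw, hk, ← Real.sqrt_mul (by norm_num)]
    apply Real.sqrt_le_sqrt
    exact_mod_cast hs
  have hrle : ∀ s : ℕ, s ≤ 2 * J → √(s : ℝ) ≤ w * j := by
    intro s hs
    rw [hw, hj, ← Real.sqrt_mul (by norm_num)]
    apply Real.sqrt_le_sqrt
    exact_mod_cast hs
  obtain ⟨θ, hθ⟩ : ∃ θ : ℝ, θ = 1 / c := ⟨_, rfl⟩
  have hθ0 : 0 < θ := by rw [hθ]; positivity
  have hθ1 : θ ≤ 1 := by rw [hθ, div_le_one hc0]; exact hc1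
  obtain ⟨Y, hY⟩ : ∃ Y : ℝ, Y = θ * (w * k) := ⟨_, rfl⟩
  have hY0 : 0 < Y := by rw [hY]; positivity
  obtain ⟨Z, hZ⟩ : ∃ Z : ℝ, Z = H * (j * k) := ⟨_, rfl⟩
  have hj1 : 1 ≤ j := by rw [hj, Real.one_le_sqrt]; linarith
  have hZ1 : 1 ≤ Z := by
    rw [hZ]
    exact one_le_mul_of_one_le_of_one_le hHR (one_le_mul_of_one_le_of_one_le hj1 (hj1.trans hjk))
  obtain ⟨J', hJ'⟩ : ∃ J' : ℕ, J' = ⌊16 * (θ * Z)⌋₊ + 1 := ⟨_, rfl⟩
  have hJ'1 : 1 ≤ J' := by omega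
  have hJ'lt : 16 * (θ * Z) < J' := by rw [hJ']; push_cast; exact Nat.lt_floor_add_one _
  have hθZ : θ * Z ≤ Z := mul_le_of_le_one_left (by linarith) hθ1
  have hJ'le : (J' : ℝ) ≤ 17 * Z := by
    rw [hJ']; push_cast
    have := Nat.floor_le (show 0 ≤ 16 * (θ * Z) by positivity)
    linarith
  have hmem : ∀ p ∈ Ico H (2 * H) ×ˢ R, (H ≤ p.1 ∧ p.1 < 2 * H) ∧ (J < p.2 ∧ p.2 ≤ 2 * J) ∧
      p.2 ≡ ρ [MOD 4 * a] := by
    intro p hp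
    rw [mem_product, mem_Ico] at hp
    exact ⟨hp.1, mem_Ioc.1 (hR hp.2), hRc _ hp.2⟩
  have hSm : ∀ s ∈ S, K < s ∧ s ≤ 2 * K := fun s hs => mem_Ioc.1 (hS hs)
  have hx : ∀ p ∈ Ico H (2 * H) ×ˢ R, 0 ≤ (p.1 : ℝ) * √(p.2 : ℝ) ∧
      (p.1 : ℝ) * √(p.2 : ℝ) * (4 * Y) < J' := by
    intro p hp
    obtain ⟨⟨h1, h2⟩, ⟨h3, h4⟩, _⟩ := hmem p hp
    refine ⟨by positivity, ?_⟩
    have h5 : (p.1 : ℝ) ≤ 2 * H := by exact_mod_cast h2.le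
    calc (p.1 : ℝ) * √(p.2 : ℝ) * (4 * Y) ≤ (2 * H) * (w * j) * (4 * Y) := by
          gcongr
          exact hrle _ h4
      _ = 8 * (w * w) * (θ * (H * (j * k))) := by rw [hY]; ring
      _ = 16 * (θ * Z) := by rw [hww, hZ]; ring
      _ < J' := hJ'lt
  have hy : ∀ s ∈ S, 0 ≤ θ * √(s : ℝ) ∧ θ * √(s : ℝ) ≤ Y := by
    intro s hs
    refine ⟨by positivity, ?_⟩
    rw [hY]
    gcongr
    exact hsle s (hSm s hs).2
  have hNx : (#(((Ico H (2 * H) ×ˢ R) ×ˢ (Ico H (2 * H) ×ˢ R)).filter (fun v =>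
      |(v.1.1 : ℝ) * √(v.1.2 : ℝ) - (v.2.1 : ℝ) * √(v.2.2 : ℝ)| ≤ 1 / (4 * Y))) : ℝ) ≤
      8 * ((H : ℝ) * J / (a * ((1 : ℕ) : ℝ) ^ 2) + (H : ℝ) ^ 3 / ((1 : ℕ) : ℝ)) := by
    refine le_trans ?_ (hQ1 a 1 H J 0 ρ ha le_rfl hH hHJ (by rw [mul_one]; exact haJ))
    have hsub : ((Ico H (2 * H) ×ˢ R) ×ˢ (Ico H (2 * H) ×ˢ R)).filter (fun v =>
        |(v.1.1 : ℝ) * √(v.1.2 : ℝ) - (v.2.1 : ℝ) * √(v.2.2 : ℝ)| ≤ 1 / (4 * Y)) ⊆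
        (PP a 1 H J 0 ρ ×ˢ PP a 1 H J 0 ρ).filter (fun v : (ℕ × ℕ) × (ℕ × ℕ) =>
          |(v.1.1 : ℤ) ^ 2 * (v.1.2 : ℤ) - (v.2.1 : ℤ) ^ 2 * (v.2.2 : ℤ)| ≤
            2 * (a : ℤ) * H * ((1 : ℕ) : ℤ) ^ 2) := by
      intro v hv
      rw [mem_filter, mem_product] at hv ⊢
      obtain ⟨⟨h1, h2⟩, h3⟩ := hv
      have hPP : ∀ p ∈ Ico H (2 * H) ×ˢ R, p ∈ PP a 1 H J 0 ρ := by
        intro p hp
        obtain ⟨g1, g2, g3⟩ := hmem p hp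
        unfold PP
        rw [mem_filter, mem_product, mem_Ico, mem_Ioc]
        exact ⟨⟨g1, g2⟩, Nat.modEq_one, by rw [mul_one]; exact g3⟩
      refine ⟨⟨hPP _ h1, hPP _ h2⟩, ?_⟩
      obtain ⟨⟨_, g2⟩, ⟨_, g4⟩, _⟩ := hmem _ h1
      obtain ⟨⟨_, g2'⟩, ⟨_, g4'⟩, _⟩ := hmem _ h2
      have g2r : (v.1.1 : ℝ) ≤ 2 * H := by exact_mod_cast g2.le
      have g2r' : (v.2.1 : ℝ) ≤ 2 * H := by exact_mod_cast g2'.le
      have k1 := hrle _ g4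
      have k2 := hrle _ g4'
      have s1 := Real.mul_self_sqrt (Nat.cast_nonneg (α := ℝ) v.1.2)
      have s2 := Real.mul_self_sqrt (Nat.cast_nonneg (α := ℝ) v.2.2)
      have h5 : ((v.1.1 : ℝ) ^ 2 * (v.1.2 : ℝ) - (v.2.1 : ℝ) ^ 2 * (v.2.2 : ℝ)) =
          ((v.1.1 : ℝ) * √(v.1.2 : ℝ) - (v.2.1 : ℝ) * √(v.2.2 : ℝ)) *
          ((v.1.1 : ℝ) * √(v.1.2 : ℝ) + (v.2.1 : ℝ) * √(v.2.2 : ℝ)) := by
        calc _ = (v.1.1 : ℝ) ^ 2 * (√(v.1.2 : ℝ) * √(v.1.2 : ℝ)) -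
              (v.2.1 : ℝ) ^ 2 * (√(v.2.2 : ℝ) * √(v.2.2 : ℝ)) := by rw [s1, s2]
          _ = _ := by ring
      have h6 : |((v.1.1 : ℝ) ^ 2 * (v.1.2 : ℝ) - (v.2.1 : ℝ) ^ 2 * (v.2.2 : ℝ))| ≤
          2 * a * H * (1 : ℝ) ^ 2 := by
        rw [h5, abs_mul, abs_of_nonneg
          (by positivity : 0 ≤ (v.1.1 : ℝ) * √(v.1.2 : ℝ) + (v.2.1 : ℝ) * √(v.2.2 : ℝ))]
        calc _ ≤ 1 / (4 * Y) * ((2 * H) * (w * j) + (2 * H) * (w * j)) := by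
              gcongr
          _ = H * c * (j / k) := by
              rw [hY, hθ]
              field_simp
              ring
          _ ≤ H * a * 1 := by
              gcongr
              rw [div_le_one hk0]
              exact hjk
          _ ≤ 2 * a * H * (1 : ℝ) ^ 2 := by
              have : 0 ≤ (a : ℝ) * H := by positivity
              linarith
      have h7 : ((|(v.1.1 : ℤ) ^ 2 * (v.1.2 : ℤ) - (v.2.1 : ℤ) ^ 2 * (v.2.2 : ℤ)| : ℤ) : ℝ) ≤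
          ((2 * (a : ℤ) * H * ((1 : ℕ) : ℤ) ^ 2 : ℤ) : ℝ) := by
        push_cast
        linarith
      exact_mod_cast h7
    exact_mod_cast card_le_card hsub
  have hNy := grid_sqrt (J' := J') (S := S) le_rfl (by omega : 1 ≤ K) hθ0 hJ'1 hk hw hY hSm
    (fun _ _ _ _ => Nat.modEq_one)
  have hmain := Pool.Agent.H373R2.T4.dls (Ico H (2 * H) ×ˢ R) S
    (fun p : ℕ × ℕ => (p.1 : ℝ) * √(p.2 : ℝ)) (fun s => θ * √(s : ℝ)) (fun p => ω p.1)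
    (fun _ => 1) Y hY0 J' hJ'1 hx hy 1 1 (fun p _ => hω p.1) (fun _ _ => by simp) zero_le_one
    zero_le_one _ _ hNx hNy
  have heq : ∑ h ∈ Ico H (2 * H), ω h * ∑ r ∈ R, ∑ s ∈ S,
        e (h / √(a : ℝ) * (√(r : ℝ) * √(s : ℝ))) =
      ∑ p ∈ Ico H (2 * H) ×ˢ R, ∑ s ∈ S, ω p.1 * 1 *
        e ((p.1 : ℝ) * √(p.2 : ℝ) * (θ * √(s : ℝ))) := by
    rw [Finset.sum_product]
    refine Finset.sum_congr rfl fun h _ => ?_
    rw [Finset.mul_sum]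
    refine Finset.sum_congr rfl fun r _ => ?_
    rw [Finset.mul_sum]
    refine Finset.sum_congr rfl fun s _ => ?_
    rw [mul_one]
    congr 2
    rw [hθ, hc]
    ring
  rw [heq]
  refine hmain.trans ?_
  rw [hP, Nat.cast_one, one_pow, div_one, div_one, mul_one, one_mul, one_mul, ← hZ]
  have h8 : (H : ℝ) * J / a ≤ H * J := div_le_self (by positivity) haR
  calc 25 * (8 * ((H : ℝ) * J / a + (H : ℝ) ^ 3) * (3 * (K : ℝ) * (4 * J' + 128 * K)))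
      ≤ 25 * (8 * ((H : ℝ) * J + (H : ℝ) ^ 3) * (3 * (K : ℝ) * (4 * (17 * Z) + 128 * K))) := by
        gcongr
    _ ≤ 25 * (8 * ((H : ℝ) * J + (H : ℝ) ^ 3) * (3 * (K : ℝ) * (128 * (Z + K)))) := by
        gcongr
        linarith
    _ = _ := by ring

theorem t_BLK : S_BLK := by
  intro hQ1 a m ha hm
  have haR : (1 : ℝ) ≤ a := by exact_mod_cast ha
  have hmR : (1 : ℝ) ≤ m := by exact_mod_cast hm
  refine ⟨1600 * a * m, by positivity, ?_⟩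
  intro ε hε x J K hx haJ hJK hJKx hKx R hR S hS H ω hH hHJ hω
  have hxr : (1 : ℝ) ≤ x := by exact_mod_cast hx
  have hxp : (0 : ℝ) < x := by linarith
  have hHR : (1 : ℝ) ≤ H := by exact_mod_cast hH
  have hHJR : (H : ℝ) ≤ J := by exact_mod_cast hHJ
  have hJKR : (J : ℝ) ≤ K := by exact_mod_cast hJK
  have hJ0 : (0 : ℝ) < J := by linarith
  have hK0 : (0 : ℝ) < K := by linarith
  obtain ⟨X, hX⟩ : ∃ X : ℝ, X = (x : ℝ) ^ ε := ⟨_, rfl⟩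
  have hX1 : 1 ≤ X := by rw [hX]; exact Real.one_le_rpow hxr hε
  have p1 : (x : ℝ) ^ (1 + ε) = x * X := by rw [Real.rpow_add hxp, Real.rpow_one, hX]
  obtain ⟨u, hu⟩ : ∃ u : ℝ, u = (x : ℝ) ^ (3 / 2 : ℝ) := ⟨_, rfl⟩
  have p2 : (x : ℝ) ^ (3 / 2 + ε) = u * X := by rw [Real.rpow_add hxp, hX, hu]
  have hu0 : 0 < u := by rw [hu]; positivity
  have huu : u ^ 2 = (x : ℝ) ^ 3 := by
    rw [hu, ← Real.rpow_natCast ((x : ℝ) ^ (3 / 2 : ℝ)) 2, ← Real.rpow_mul hxp.le]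
    norm_num
  obtain ⟨B, hB⟩ : ∃ B : ℝ, B = (x : ℝ) ^ (3 / 2 + ε) * H + (x : ℝ) ^ (1 + ε) * (H : ℝ) ^ 2 :=
    ⟨_, rfl⟩
  rw [p1] at hKx
  have hP : √((J : ℝ) * K) ≤ m * x := by
    refine Real.sqrt_le_iff.2 ⟨by positivity, hJKx.trans ?_⟩
    rw [mul_pow]
    gcongr
    nlinarith
  have hkey : ((H : ℝ) * J + (H : ℝ) ^ 3) * (K * (H * √((J : ℝ) * K) + K)) ≤ 2 * m ^ 2 * B ^ 2 := by
    have q1 : (J : ℝ) * K * √((J : ℝ) * K) ≤ (m * x ^ 2) * (m * x) :=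
      mul_le_mul hJKx hP (Real.sqrt_nonneg _) (by positivity)
    have q2 : (J : ℝ) * K * K ≤ (m * x ^ 2) * (m * (x * X)) :=
      mul_le_mul hJKx hKx (by positivity) (by positivity)
    have q3 : (K : ℝ) * √((J : ℝ) * K) ≤ (m * (x * X)) * (m * x) :=
      mul_le_mul hKx hP (Real.sqrt_nonneg _) (by positivity)
    have q4 : (K : ℝ) * K ≤ (m * (x * X)) * (m * (x * X)) :=
      mul_le_mul hKx hKx (by positivity) (by positivity)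
    have hB2 : m ^ 2 * ((u * X * H) ^ 2 + (x * X * (H : ℝ) ^ 2) ^ 2) ≤ m ^ 2 * B ^ 2 := by
      rw [hB, p1, p2]
      refine mul_le_mul_of_nonneg_left ?_ (by positivity)
      have : 0 ≤ (u * X * H) * (x * X * (H : ℝ) ^ 2) := by positivity
      nlinarith
    have hXX : X ≤ X ^ 2 := by nlinarith
    have hX2 : 1 ≤ X ^ 2 := by nlinarith
    have hHH : (H : ℝ) ≤ H ^ 2 := by nlinarith
    have hH3 : (H : ℝ) ^ 3 ≤ H ^ 4 := pow_le_pow_right₀ hHR (by norm_num)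
    calc ((H : ℝ) * J + (H : ℝ) ^ 3) * (K * (H * √((J : ℝ) * K) + K))
        = (H : ℝ) ^ 2 * (J * K * √((J : ℝ) * K)) + H * (J * K * K) +
          (H : ℝ) ^ 4 * (K * √((J : ℝ) * K)) + (H : ℝ) ^ 3 * (K * K) := by ring
      _ ≤ (H : ℝ) ^ 2 * ((m * x ^ 2) * (m * x)) + H * ((m * x ^ 2) * (m * (x * X))) +
          (H : ℝ) ^ 4 * ((m * (x * X)) * (m * x)) +
          (H : ℝ) ^ 3 * ((m * (x * X)) * (m * (x * X))) := by gcongr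
      _ = m ^ 2 * ((x : ℝ) ^ 3 * ((H : ℝ) ^ 2 * 1 + H * X) +
          (x : ℝ) ^ 2 * ((H : ℝ) ^ 4 * X + (H : ℝ) ^ 3 * X ^ 2)) := by ring
      _ ≤ m ^ 2 * ((x : ℝ) ^ 3 * ((H : ℝ) ^ 2 * X ^ 2 + (H : ℝ) ^ 2 * X ^ 2) +
          (x : ℝ) ^ 2 * ((H : ℝ) ^ 4 * X ^ 2 + (H : ℝ) ^ 4 * X ^ 2)) := by gcongr
      _ = 2 * (m ^ 2 * ((u * X * H) ^ 2 + (x * X * (H : ℝ) ^ 2) ^ 2)) := by
          rw [← huu]
          ring
      _ ≤ 2 * (m ^ 2 * B ^ 2) := by linarith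
      _ = _ := by ring
  have hB0 : 0 ≤ B := by rw [hB]; positivity
  have hcl : ∀ ρ : ℕ, ‖∑ h ∈ Ico H (2 * H), ω h * ∑ r ∈ R.filter (fun r => r % (4 * a) = ρ),
      ∑ s ∈ S, e (h / √(a : ℝ) * (√(r : ℝ) * √(s : ℝ)))‖ ≤ 400 * m * B := by
    intro ρ
    have h1 := blk_class hQ1 a H J K ρ ha hH hHJ haJ hJK (R.filter (fun r => r % (4 * a) = ρ)) S
      ((filter_subset _ _).trans hR) (by
        intro r hr
        rw [mem_filter] at hr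
        have h2 := Nat.mod_modEq r (4 * a)
        rw [hr.2] at h2
        exact h2.symm) hS ω hω
    refine (abs_le_of_sq_le_sq' (h1.trans ?_) (by positivity)).2
    calc 76800 * (((H : ℝ) * J + (H : ℝ) ^ 3) * (K * (H * √((J : ℝ) * K) + K)))
        ≤ 76800 * (2 * m ^ 2 * B ^ 2) := by gcongr
      _ ≤ (400 * m * B) ^ 2 := by
          have : 0 ≤ (m : ℝ) ^ 2 * B ^ 2 := by positivity
          nlinarith
  have hsplit : ∑ h ∈ Ico H (2 * H), ω h * ∑ r ∈ R, ∑ s ∈ S,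
        e (h / √(a : ℝ) * (√(r : ℝ) * √(s : ℝ))) =
      ∑ ρ ∈ range (4 * a), ∑ h ∈ Ico H (2 * H), ω h *
        ∑ r ∈ R.filter (fun r => r % (4 * a) = ρ), ∑ s ∈ S,
        e (h / √(a : ℝ) * (√(r : ℝ) * √(s : ℝ))) := by
    rw [Finset.sum_comm]
    refine Finset.sum_congr rfl fun h _ => ?_
    rw [← Finset.mul_sum]
    congr 1
    rw [Finset.sum_fiberwise_of_maps_to]
    intro r _
    rw [mem_range]
    exact Nat.mod_lt _ (by omega)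
  rw [hsplit, ← hB]
  calc _ ≤ ∑ ρ ∈ range (4 * a), ‖∑ h ∈ Ico H (2 * H), ω h *
        ∑ r ∈ R.filter (fun r => r % (4 * a) = ρ), ∑ s ∈ S,
        e (h / √(a : ℝ) * (√(r : ℝ) * √(s : ℝ)))‖ := norm_sum_le _ _
    _ ≤ ∑ _ρ ∈ range (4 * a), 400 * m * B := Finset.sum_le_sum fun ρ _ => hcl ρ
    _ = _ := by
        rw [Finset.sum_const, card_range, nsmul_eq_mul]
        push_cast
        ring

end Pool.Agent.H568.LB.PBLK
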