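import Mathlib
import Pool.Agent.H568.LB.Stm

/-! Project LB (helper568), task G5 (helper337). -/

set_option autoImplicit false

open Finset Filter Topology Pool.Agent.N792 Pool.Agent.N791.U Pool.Agent.N792.RX5 Pool.Agent.H568 Pool.Agent.H568.LB
open ArithmeticFunction (moebius)

namespace Pool.Agent.H568.LB.PG5

/-- the set `B` is a dropped pair -/
def Dr (U V : ℕ) (B : Finset ℕ) : Prop := ∃ q p, B = {q, p} ∧ dr U V q p

lemma g5_pos {Q U V d : ℕ} (h : Dr U V (bigp Q d)) : g5 Q U V d = 0 := by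
  unfold g5
  exact if_pos h

lemma g5_neg {Q U V d : ℕ} (h : ¬ Dr U V (bigp Q d)) : g5 Q U V d = (moebius d : ℝ) := by
  unfold g5
  exact if_neg h

lemma Dr_card {U V : ℕ} {B : Finset ℕ} (h : Dr U V B) : #B = 2 := by
  obtain ⟨q, p, rfl, hd⟩ := h
  exact card_pair hd.1.ne

lemma Dr_pair {U V s P : ℕ} : Dr U V (insert P {s}) ↔ dr U V s P ∨ dr U V P s := by
  constructor
  · rintro ⟨q, p, h, hd⟩
    have hq : q ∈ (insert P {s} : Finset ℕ) := by rw [h]; simp
    have hp : p ∈ (insert P {s} : Finset ℕ) := by rw [h]; simp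
    have hne := hd.1.ne
    rw [mem_insert, mem_singleton] at hq hp
    rcases hq with rfl | rfl
    · rcases hp with rfl | rfl
      · exact absurd rfl hne
      · exact Or.inr hd
    · rcases hp with rfl | rfl
      · exact Or.inl hd
      · exact absurd rfl hne
  · rintro (h | h)
    · exact ⟨s, P, pair_comm _ _, h⟩
    · exact ⟨P, s, rfl, h⟩

/-- the indicator function of an interval -/
lemma SL_int (m t1 t2 : ℕ) : SL m 2 (fun P => if t1 < P ∧ P ≤ t2 then (1 : ℝ) else 0) := by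
  refine (((SL.const m 1 (by simp)).add (SL.step m t2 (-1) (by simp))).mul_step t1).congr
    fun P _ _ => ?_
  by_cases h1 : t1 < P
  · by_cases h2 : P ≤ t2
    · rw [if_pos ⟨h1, h2⟩, if_pos h1, if_neg (by omega)]; ring
    · rw [if_neg (fun h => h2 h.2), if_pos h1, if_pos (by omega)]; ring
  · rw [if_neg (fun h => h1 h.1), if_neg h1]; ring

lemma dr_iff1 {U V s P : ℕ} (hs : 0 < s) :
    dr U V s P ↔ max s (V / (s * s)) < P ∧ P ≤ U / s := by
  unfold dr
  rw [max_lt_iff, Nat.div_lt_iff_lt_mul (Nat.mul_pos hs hs), Nat.le_div_iff_mul_le hs,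
    mul_comm P (s * s), mul_comm P s]
  tauto

lemma dr_iff2 {U V s P : ℕ} (hs : 0 < s) :
    dr U V P s ↔ Nat.sqrt (V / s) < P ∧ P ≤ min (s - 1) (U / s) := by
  unfold dr
  rw [Nat.sqrt_lt, Nat.div_lt_iff_lt_mul hs, le_min_iff, Nat.le_div_iff_mul_le hs]
  constructor
  · rintro ⟨h1, h2, h3⟩
    exact ⟨h3, by omega, h2⟩
  · rintro ⟨h1, h2, h3⟩
    exact ⟨by omega, h3, h1⟩

open Classical in
/-- the indicator function of the dropped pairs -/
lemma SL_dr (m s U V : ℕ) (hs : 0 < s) :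
    SL m 4 (fun P => if Dr U V (insert P {s}) then (1 : ℝ) else 0) := by
  refine ((SL_int m (max s (V / (s * s))) (U / s)).add
    (SL_int m (Nat.sqrt (V / s)) (min (s - 1) (U / s)))).congr fun P _ _ => ?_
  by_cases h1 : dr U V s P
  · have h2 : ¬ dr U V P s := fun h2 => absurd h1.1 (not_lt.2 h2.1.le)
    rw [if_pos (Dr_pair.2 (Or.inl h1)), if_pos ((dr_iff1 hs).1 h1),
      if_neg (fun h => h2 ((dr_iff2 hs).2 h)), add_zero]
  · by_cases h2 : dr U V P s
    · rw [if_pos (Dr_pair.2 (Or.inr h2)), if_neg (fun h => h1 ((dr_iff1 hs).2 h)),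
        if_pos ((dr_iff2 hs).1 h2), zero_add]
    · rw [if_neg (fun h => (Dr_pair.1 h).elim h1 h2), if_neg (fun h => h1 ((dr_iff1 hs).2 h)),
        if_neg (fun h => h2 ((dr_iff2 hs).2 h)), add_zero]

lemma g5_abs (Q U V d : ℕ) : |g5 Q U V d| ≤ 1 := by
  by_cases h : Dr U V (bigp Q d)
  · rw [g5_pos h, abs_zero]; exact zero_le_one
  · rw [g5_neg h]; exact mu_abs d

open Classical in
lemma SL_g5 (Q U V m : ℕ) (hm : m ≠ 0) : SL m 12 (fun P => g5 Q U V (m * P)) := by
  have hX : SL m 4 (fun P => if P ∉ bigp Q m ∧ Dr U V (insert P (bigp Q m)) then (1 : ℝ) else 0) := by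
    by_cases h1 : #(bigp Q m) = 1
    · obtain ⟨s, hs⟩ := card_eq_one.1 h1
      have hs0 : 0 < s := by
        have : s ∈ bigp Q m := by rw [hs]; simp
        unfold bigp at this
        exact (Nat.prime_of_mem_primeFactors (mem_filter.1 this).1).pos
      refine (SL_dr m s U V hs0).congr fun P hP hPm => ?_
      have h2 : P ∉ bigp Q m := not_mem_bigp hPm
      rw [← hs]
      by_cases h3 : Dr U V (insert P (bigp Q m))
      · rw [if_pos ⟨h2, h3⟩, if_pos h3]
      · rw [if_neg (fun h => h3 h.2), if_neg h3]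
    · refine (SL.zero m 4).congr fun P hP hPm => if_neg ?_
      rintro ⟨h2, h3⟩
      have h4 := Dr_card h3
      rw [card_insert_of_notMem h2] at h4
      omega
  have h0 : |g5 Q U V m - (moebius m : ℝ)| ≤ 1 := by
    by_cases h : Dr U V (bigp Q m)
    · rw [g5_pos h, zero_sub, abs_neg]; exact mu_abs m
    · rw [g5_neg h, sub_self, abs_zero]; exact zero_le_one
  have hc := (SL.const m (-(g5 Q U V m)) (by rw [abs_neg]; exact g5_abs Q U V m)).add
    (((SL.const m (g5 Q U V m - (moebius m : ℝ)) h0).add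
      (hX.smul (moebius m : ℝ) (mu_abs m))).mul_step Q)
  refine (hc.mono (by norm_num)).congr fun P hP hPm => ?_
  have h2 : P ∉ bigp Q m := not_mem_bigp hPm
  by_cases hQ : Q < P
  · have hb : bigp Q (m * P) = insert P (bigp Q m) := by rw [bigp_mul hm hP, if_pos hQ]
    by_cases h3 : Dr U V (insert P (bigp Q m))
    · rw [g5_pos (by rw [hb]; exact h3), if_pos hQ, if_pos ⟨h2, h3⟩]
      ring
    · rw [g5_neg (by rw [hb]; exact h3), if_pos hQ, if_neg (fun h => h3 h.2), mu_mul hP hPm]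
      ring
  · have hb : bigp Q (m * P) = bigp Q m := by rw [bigp_mul hm hP, if_neg hQ]
    rw [if_neg hQ]
    by_cases h3 : Dr U V (bigp Q m)
    · rw [g5_pos (by rw [hb]; exact h3), g5_pos h3]
      ring
    · rw [g5_neg (by rw [hb]; exact h3), g5_neg h3, mu_mul hP hPm]
      ring

lemma Ok_mur (Q : ℕ) : Ok 2 (mur Q) := by
  refine Ok_of (fun k => ?_) (fun m _ => ?_)
  · unfold mur
    rw [abs_mul]
    have h1 := Shp.rg_abs Q k
    have h2 : |rg Q k| ≤ 1 := by rw [abs_of_nonneg h1.1]; exact h1.2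
    calc |(moebius k : ℝ)| * |rg Q k| ≤ 1 * 1 :=
          mul_le_mul (mu_abs k) h2 (abs_nonneg _) zero_le_one
      _ ≤ ((2 : ℕ) : ℝ) := by norm_num
  · refine (((SL_rg Q m).smul (-(moebius m : ℝ)) (by rw [abs_neg]; exact mu_abs m)).mono
      (by norm_num)).congr fun P hP hPm => ?_
    unfold mur
    rw [mu_mul hP hPm]

theorem t_G5 : S_G5 := by
  refine ⟨g5_abs, fun Q U V d h => ?_, fun Q U V d q hq hqQ hqd => ?_, SL_g5, Ok_mur⟩
  · by_contra hns
    apply h
    by_cases h1 : Dr U V (bigp Q d)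
    · exact g5_pos h1
    · rw [g5_neg h1, ArithmeticFunction.moebius_eq_zero_of_not_squarefree hns]
      simp
  · have hd : d ≠ 0 := by
      rintro rfl
      exact hqd (dvd_zero q)
    have hb : bigp Q (d * q) = bigp Q d := by rw [bigp_mul hd hq, if_neg (by omega)]
    by_cases h3 : Dr U V (bigp Q d)
    · rw [g5_pos (by rw [hb]; exact h3), g5_pos h3, neg_zero]
    · rw [g5_neg (by rw [hb]; exact h3), g5_neg h3, mu_mul hq hqd]

end Pool.Agent.H568.LB.PG5
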