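import Mathlib
import Pool.Agent.H568.LB.Stm

set_option autoImplicit false

open Finset Filter Topology Pool.Agent.N792 Pool.Agent.N791.U Pool.Agent.N792.RX5 Pool.Agent.H568 Pool.Agent.H568.LB

namespace Pool.Agent.H568.LB.PLST

/-- the lists of length `k` with entries in `P` -/
noncomputable def lists (k : ℕ) (P : Finset ℕ) : Finset (List ℕ) :=
  (Fintype.piFinset (fun _ : Fin k => P)).image List.ofFn

lemma mem_lists {k : ℕ} {P : Finset ℕ} {t : List ℕ} :
    t ∈ lists k P ↔ t.length = k ∧ ∀ p ∈ t, p ∈ P := by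
  unfold lists
  rw [Finset.mem_image]
  constructor
  · rintro ⟨f, hf, rfl⟩
    rw [Fintype.mem_piFinset] at hf
    refine ⟨List.length_ofFn, fun p hp => ?_⟩
    rw [List.mem_ofFn] at hp
    obtain ⟨i, rfl⟩ := hp
    exact hf i
  · rintro ⟨rfl, h⟩
    refine ⟨t.get, ?_, List.ofFn_get t⟩
    rw [Fintype.mem_piFinset]
    intro i
    exact h _ (List.get_mem t i)

theorem t_LST (hML : S_ML) (hTUP : S_TUP) : S_LST := by
  intro a Λ R m a0 a1 k Nb u τ η W ha hΛ hm ha0 hm4 hu hW hcs hτ hη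
  have hτ0 : 0 ≤ τ := le_trans (by positivity) hτ
  filter_upwards [hML a ha Λ hΛ R τ η hτ0 hη, hTUP m a0 a1 k u W hm ha0 hm4 hu hW,
    eventually_ge_atTop 2] with x h1 h2 hx2
  intro b hb x1 x2 hx12 hx2x hxR Q hQ F hF
  have hlogx : 0 < Real.log x := Real.log_pos (by exact_mod_cast (by omega : 1 < x))
  classical
  have hpos : ∀ t : List ℕ, (∀ p ∈ t, p ∈ PQ x Q u) → 0 < t.prod := by
    intro t ht
    apply List.prod_pos
    intro p hp
    have := ht p hp
    unfold PQ at this
    rw [Finset.mem_filter] at this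
    exact this.2.1.pos
  refine h1 b hb x1 x2 hx12 hx2x hxR (List ℕ)
    ((lists k (PQ x Q u)).filter (fun t => Real.log (t.prod : ℕ) ≤ 9 / 5 * Real.log x))
    (fun t => (W (t.map (cidx x m)) : ℝ)) (fun t => t.prod) ?_ ?_ F ?_
  · intro t ht
    rw [Finset.mem_filter, mem_lists] at ht
    exact ⟨Nat.cast_nonneg _, hpos t ht.1.2, ht.2⟩
  · refine (h2 Q hQ _ _ ?_).trans ?_
    · intro t ht
      rw [Finset.mem_filter, mem_lists] at ht
      exact ⟨ht.1.1, ht.1.2, Nat.cast_nonneg _, le_rfl⟩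
    · apply div_le_div_of_nonneg_right _ hlogx.le
      refine le_trans ?_ hτ
      apply div_le_div_of_nonneg_right _ (by positivity)
      exact_mod_cast hcs
  · intro N hN1 hN2 hN0
    have hterm : ∀ t ∈ (lists k (PQ x Q u)).filter (fun t => Real.log (t.prod : ℕ) ≤ 9 / 5 * Real.log x),
        0 ≤ (W (t.map (cidx x m)) : ℝ) * (if t.prod ∣ N then pi0 (N / t.prod) else 0) := by
      intro t _
      apply mul_nonneg (Nat.cast_nonneg _)
      unfold Pool.Agent.N792.pi0
      split_ifs <;> norm_num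
    by_cases hFN : 0 < F N
    · obtain ⟨t, ht1, ht2, ht3, ht4, ht5, ht6⟩ := hF N hN0 hN1 hN2 hFN
      have hmem : t ∈ (lists k (PQ x Q u)).filter
          (fun t => Real.log (t.prod : ℕ) ≤ 9 / 5 * Real.log x) := by
        rw [Finset.mem_filter, mem_lists]
        exact ⟨⟨ht1, ht2⟩, ht3⟩
      refine ht6.trans (le_trans ?_ (Finset.single_le_sum hterm hmem))
      have hp : pi0 (N / t.prod) = 1 := by
        unfold Pool.Agent.N792.pi0
        rw [if_pos ht5]
      rw [if_pos ht4, hp, mul_one]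
    · exact (not_lt.mp hFN).trans (Finset.sum_nonneg hterm)

end Pool.Agent.H568.LB.PLST
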