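import Mathlib
import Pool.Agent.H568.LB.Stm

/-!
# Task N5 of project LB (helper568): the computation for five primes (by helper353)
-/

set_option autoImplicit false

open Finset Filter Topology Pool.Agent.N792 Pool.Agent.N791.U Pool.Agent.N792.RX5 Pool.Agent.H568 Pool.Agent.H568.LB

namespace Pool.Agent.H568.LB.PN5

/-- sums, for the kernel -/
noncomputable def SN (f : ℕ → ℕ) (n : ℕ) : ℕ :=
  Nat.rec (motive := fun _ => ℕ) 0 (fun k ih => Nat.add ih (f k)) n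

theorem SN_eq (f : ℕ → ℕ) (n : ℕ) : SN f n = ∑ i ∈ range n, f i := by
  induction n with
  | zero => rfl
  | succ n ih =>
    rw [sum_range_succ, ← ih]
    rfl

/-- `lamN`, for the kernel -/
noncomputable def lm (c : ℕ) : ℕ :=
  Nat.add (Nat.div (Nat.mul 100000000 (Nat.sub (Nat.mul 2 c) 1)) (Nat.mul (Nat.mul 2 c) (Nat.sub c 1))) 2

theorem lm_eq (c : ℕ) : lm c = lamN c := rfl

/-- one sum over cells -/
noncomputable def LP (lo hi : ℕ) (g : ℕ → ℕ) : ℕ :=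
  SN (fun k => cond (Nat.ble lo k) (Nat.mul (lm k) (g k)) 0) (Nat.add hi 1)

theorem LP_ge (a0 a1 lo hi : ℕ) (g g' : ℕ → ℕ)
    (h0 : ∀ c, a0 < c → ¬ (lo ≤ c ∧ c ≤ hi) → g c = 0)
    (h : ∀ c, a0 < c → lo ≤ c → c ≤ hi → g c ≤ g' c) :
    ∑ c ∈ Ioc a0 a1, lamN c * g c ≤ LP lo hi g' := by
  unfold LP
  rw [SN_eq]
  have h1 : ∑ c ∈ Ioc a0 a1, lamN c * g c =
      ∑ c ∈ (Ioc a0 a1).filter (fun c => lo ≤ c ∧ c ≤ hi), lamN c * g c := by
    refine (sum_filter_of_ne fun c hc hne => ?_).symm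
    by_contra hcon
    exact hne (by rw [h0 c (mem_Ioc.1 hc).1 hcon, mul_zero])
  rw [h1]
  calc ∑ c ∈ (Ioc a0 a1).filter (fun c => lo ≤ c ∧ c ≤ hi), lamN c * g c
      ≤ ∑ c ∈ (Ioc a0 a1).filter (fun c => lo ≤ c ∧ c ≤ hi),
        cond (Nat.ble lo c) (Nat.mul (lm c) (g' c)) 0 := by
        refine sum_le_sum fun c hc => ?_
        obtain ⟨hc1, hc2, hc3⟩ := mem_filter.1 hc
        rw [Nat.ble_eq_true_of_le hc2, cond_true, lm_eq]
        exact Nat.mul_le_mul_left _ (h c (mem_Ioc.1 hc1).1 hc2 hc3)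
    _ ≤ _ := by
        refine sum_le_sum_of_subset_of_nonneg ?_ fun _ _ _ => Nat.zero_le _
        intro c hc
        obtain ⟨hc1, hc2, hc3⟩ := mem_filter.1 hc
        exact mem_range.2 (Nat.lt_succ_of_le hc3)

noncomputable def vA (a b : ℕ) : ℕ :=
  cond (Nat.ble (Nat.add a b) 104) (cond (Nat.ble (Nat.add (Nat.mul 2 a) b) 135) 2 1) 0

noncomputable def vP (a s : ℕ) : ℕ :=
  cond (Nat.ble (Nat.add a 140) s) (cond (Nat.ble (Nat.add (Nat.mul 2 a) 110) s) 2 1) 0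

/-- the value of a cell -/
noncomputable def cellV (c1 c2 c3 c4 : ℕ) : ℕ :=
  (fun S => Nat.mul (Nat.sub 14
    (Nat.add (Nat.add (Nat.add (vP c1 S) (vP c2 S)) (Nat.add (vP c3 S) (vP c4 S)))
      (Nat.add (Nat.add (Nat.add (vA c3 c4) (vA c2 c4)) (vA c1 c4))
        (Nat.add (Nat.add (vA c2 c3) (vA c1 c3)) (vA c1 c2)))))
    (Nat.add (Nat.div 1200000000000 (Nat.sub 2399880 (Nat.mul 10000 S))) 1))
    (Nat.add (Nat.add (Nat.add c1 c2) c3) c4)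

/-- the whole sum -/
noncomputable def tot : ℕ :=
  LP 31 49 fun c1 => LP c1 (Nat.div (Nat.sub 245 c1) 4) fun c2 =>
    LP c2 (Nat.div (Nat.sub 245 (Nat.add c1 c2)) 3) fun c3 =>
      LP c3 (Nat.div (Nat.sub 245 (Nat.add (Nat.add c1 c2) c3)) 2) fun c4 => cellV c1 c2 c3 c4

theorem wE_zero (c1 c2 c3 c4 : ℕ) (h : ¬ (c1 ≤ c2 ∧ c2 ≤ c3 ∧ c3 ≤ c4 ∧ c1 + c2 + c3 + 2 * c4 ≤ 245)) :
    wE 120 [c4, c3, c2, c1] = 0 := by
  unfold wE okl
  refine if_neg fun hc => h ?_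
  rw [Bool.and_eq_true, decide_eq_true_eq, decide_eq_true_eq] at hc
  obtain ⟨h1, h2⟩ := hc
  simp only [List.pairwise_cons, List.mem_cons, List.not_mem_nil, or_false, forall_eq_or_imp,
    forall_eq] at h1
  simp only [List.sum_cons, List.sum_nil, List.headD_cons, List.length_cons, List.length_nil] at h2
  omega

theorem vA_eq (a b : ℕ) : vA a b = if 10000 * a + 10000 * b ≤ 8749 * 120 then
    (if 2 * (10000 * a) + 10000 * b ≤ 11250 * 120 then 2 else 1) else 0 := by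
  unfold vA
  rw [Bool.cond_eq_ite, Bool.cond_eq_ite]
  simp only [Nat.ble_eq, Nat.add_eq, Nat.mul_eq]
  split_ifs <;> omega

theorem vP_eq (a s : ℕ) (hs : s ≤ 240) : vP a s =
    if 10000 * a + (20001 * 120 + 10000 * 4 - 10000 * s) ≤ 8749 * 120 then
    (if 2 * (10000 * a) + (20001 * 120 + 10000 * 4 - 10000 * s) ≤ 11250 * 120 then 2 else 1) else 0 := by
  unfold vP
  rw [Bool.cond_eq_ite, Bool.cond_eq_ite]
  simp only [Nat.ble_eq, Nat.add_eq, Nat.mul_eq]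
  split_ifs <;> omega

theorem cell_le (c1 c2 c3 c4 : ℕ) (h : c1 ≤ c2 ∧ c2 ≤ c3 ∧ c3 ≤ c4 ∧
    c1 + c2 + c3 + 2 * c4 ≤ 245) :
    wE 120 [c4, c3, c2, c1] * gN 120 [c4, c3, c2, c1].sum ≤ cellV c1 c2 c3 c4 := by
  obtain ⟨S, hS⟩ : ∃ S, S = c1 + c2 + c3 + c4 := ⟨_, rfl⟩
  have hsum : [c4, c3, c2, c1].sum = S := by
    simp only [List.sum_cons, List.sum_nil]
    omega
  have hw : wE 120 [c4, c3, c2, c1] ≤ 14 - ps2 (vv 120) (ivs 120 [c4, c3, c2, c1]) := by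
    unfold wE
    split_ifs
    · exact le_rfl
    · exact Nat.zero_le _
  have hp : ps2 (vv 120) (ivs 120 [c4, c3, c2, c1]) =
      ((vP c1 S + vP c2 S) + (vP c3 S + vP c4 S)) +
      (((vA c3 c4 + vA c2 c4) + vA c1 c4) + ((vA c2 c3 + vA c1 c3) + vA c1 c2)) := by
    have hS240 : S ≤ 240 := by omega
    unfold ivs
    rw [hsum]
    simp only [List.length_cons, List.length_nil, List.map_cons, List.map_nil, ps2, List.sum_cons,
      List.sum_nil, vv, vA_eq, vP_eq _ _ hS240]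
    ring
  have hg : gN 120 S = 1200000000000 / (2399880 - 10000 * S) + 1 := rfl
  rw [hsum, hg]
  have e : cellV c1 c2 c3 c4 = (14 - (((vP c1 S + vP c2 S) + (vP c3 S + vP c4 S)) +
      (((vA c3 c4 + vA c2 c4) + vA c1 c4) + ((vA c2 c3 + vA c1 c3) + vA c1 c2)))) *
      (1200000000000 / (2399880 - 10000 * S) + 1) := by
    rw [hS]
    rfl
  rw [e, ← hp]
  exact Nat.mul_le_mul_right _ hw

theorem cs_le : cs 30 121 (fun l => wE 120 l * gN 120 l.sum) 4 [] ≤ tot := by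
  have hz : ∀ c1 c2 c3 c4 : ℕ, ¬ (c1 ≤ c2 ∧ c2 ≤ c3 ∧ c3 ≤ c4 ∧ c1 + c2 + c3 + 2 * c4 ≤ 245) →
      wE 120 [c4, c3, c2, c1] * gN 120 [c4, c3, c2, c1].sum = 0 := fun c1 c2 c3 c4 h => by
    rw [wE_zero c1 c2 c3 c4 h, zero_mul]
  unfold tot
  refine LP_ge 30 121 31 49 _ _ ?_ ?_
  · intro c1 h1 hc
    refine sum_eq_zero fun c2 _ => mul_eq_zero.2 (Or.inr ?_)
    refine sum_eq_zero fun c3 _ => mul_eq_zero.2 (Or.inr ?_)
    refine sum_eq_zero fun c4 _ => mul_eq_zero.2 (Or.inr ?_)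
    exact hz c1 c2 c3 c4 (by omega)
  · intro c1 h1 _ _
    refine LP_ge 30 121 _ _ _ _ ?_ ?_
    · intro c2 _ hc
      change ¬ (c1 ≤ c2 ∧ c2 ≤ (245 - c1) / 4) at hc
      refine sum_eq_zero fun c3 _ => mul_eq_zero.2 (Or.inr ?_)
      refine sum_eq_zero fun c4 _ => mul_eq_zero.2 (Or.inr ?_)
      exact hz c1 c2 c3 c4 (by omega)
    · intro c2 _ h12 _
      refine LP_ge 30 121 _ _ _ _ ?_ ?_
      · intro c3 _ hc
        change ¬ (c2 ≤ c3 ∧ c3 ≤ (245 - (c1 + c2)) / 3) at hc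
        refine sum_eq_zero fun c4 _ => mul_eq_zero.2 (Or.inr ?_)
        exact hz c1 c2 c3 c4 (by omega)
      · intro c3 _ h23 _
        refine LP_ge 30 121 _ _ _ _ ?_ ?_
        · intro c4 _ hc
          change ¬ (c3 ≤ c4 ∧ c4 ≤ (245 - (c1 + c2 + c3)) / 2) at hc
          exact hz c1 c2 c3 c4 (by omega)
        · intro c4 _ h34 h4
          change c4 ≤ (245 - (c1 + c2 + c3)) / 2 at h4
          exact cell_le c1 c2 c3 c4 ⟨h12, h23, h34, by omega⟩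

theorem tot_le : tot ≤ 464 * 10 ^ 34 := by
  decide +kernel

theorem t_N5 : S_N5 := cs_le.trans tot_le

end Pool.Agent.H568.LB.PN5
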