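import Mathlib
import Pool.Agent.H568.LB.Stm

/-!
# LB-N6: kernel computation for six prime factors (helper295)

`cs_le_fs` reduces the sum over all lists of cells to a recursive function which only visits the
increasing choices allowed by `okl`.
-/

open Finset Filter Topology Pool.Agent.N792 Pool.Agent.N791.U Pool.Agent.N792.RX5 Pool.Agent.H568
  Pool.Agent.H568.LB

namespace Pool.Agent.H568.LB.PN6

/-- sums over an interval -/
def sf (f : ℕ → ℕ) : ℕ → ℕ → ℕ
  | 0, _ => 0
  | n + 1, p => f p + sf f n (p + 1)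

/-- the fast sum -/
def fs (M : ℕ) (G : List ℕ → ℕ) : ℕ → ℕ → ℕ → List ℕ → ℕ
  | 0, _, _, l => G l
  | k + 1, p, s, l =>
    sf (fun c => lamN c * fs M G k c (s + c) (c :: l)) ((M - s) / (k + 2) + 1 - p) p

theorem sf_eq (f : ℕ → ℕ) (n p : ℕ) : sf f n p = ∑ c ∈ Ico p (p + n), f c := by
  induction n generalizing p with
  | zero => simp [sf]
  | succ n ih =>
    rw [sf, ih, Finset.sum_eq_sum_Ico_succ_bot (by omega : p < p + (n + 1))]
    congr 2
    congr 1
    omega

theorem cs_ne {a0 a1 : ℕ} {F : List ℕ → ℕ} (k : ℕ) : ∀ l : List ℕ, Pool.Agent.H568.LB.cs a0 a1 F k l ≠ 0 →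
    ∃ e : List ℕ, e.length = k ∧ F (e ++ l) ≠ 0 := by
  induction k with
  | zero => exact fun l h => ⟨[], rfl, h⟩
  | succ k ih =>
    intro l h
    rw [Pool.Agent.H568.LB.cs] at h
    obtain ⟨c, -, hc⟩ := Finset.exists_ne_zero_of_sum_ne_zero h
    obtain ⟨e, he, hF⟩ := ih (c :: l) (fun h0 => hc (by rw [h0, mul_zero]))
    refine ⟨e ++ [c], by simp [he], ?_⟩
    rwa [List.append_assoc]

theorem pairwise_low {c : ℕ} {l : List ℕ} : ∀ e : List ℕ, (e ++ c :: l).Pairwise (· ≥ ·) →
    e.length * c + c + l.sum ≤ (e ++ c :: l).sum ∧ c ≤ (e ++ c :: l).headD 0 := by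
  intro e
  induction e with
  | nil => intro _; simp
  | cons x e ih =>
    intro h
    rw [List.cons_append, List.pairwise_cons] at h
    obtain ⟨h1, -⟩ := ih h.2
    have h3 : c ≤ x := h.1 c (by simp)
    refine ⟨?_, by simpa using h3⟩
    rw [List.cons_append, List.sum_cons, List.length_cons]
    have : (e.length + 1) * c = e.length * c + c := by ring
    omega

/-- **The sum is at most the fast sum.** -/
theorem cs_le_fs {a0 a1 K M : ℕ} {F G : List ℕ → ℕ} (hFG : ∀ l, F l ≤ G l)
    (hF : ∀ l : List ℕ, l.length = K → F l ≠ 0 → l.Pairwise (· ≥ ·) ∧ l.sum + l.headD 0 ≤ M)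
    (k : ℕ) : ∀ (p : ℕ) (l : List ℕ), l.length + k = K →
      ((l = [] ∧ p = a0 + 1) ∨ ∃ t, l = p :: t) →
      Pool.Agent.H568.LB.cs a0 a1 F k l ≤ fs M G k p l.sum l := by
  induction k with
  | zero => exact fun p l _ _ => hFG l
  | succ k ih =>
    intro p l hl hp
    rw [Pool.Agent.H568.LB.cs, fs, sf_eq]
    have h1 : ∀ c ∈ Ioc a0 a1, lamN c * Pool.Agent.H568.LB.cs a0 a1 F k (c :: l) ≠ 0 →
        c ∈ Ico p (p + ((M - l.sum) / (k + 2) + 1 - p)) := by
      intro c hc hne
      obtain ⟨e, he, hne'⟩ := cs_ne k (c :: l) (fun h0 => hne (by rw [h0, mul_zero]))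
      obtain ⟨hpw, hM⟩ := hF (e ++ c :: l) (by
        rw [List.length_append, List.length_cons, he]
        omega) hne'
      obtain ⟨h2, h3⟩ := pairwise_low e hpw
      rw [he] at h2
      have h4 : c ≤ (M - l.sum) / (k + 2) := by
        rw [Nat.le_div_iff_mul_le (by omega)]
        have : c * (k + 2) = k * c + c + c := by ring
        omega
      have h5 : p ≤ c := by
        rcases hp with ⟨-, hp⟩ | ⟨t, ht⟩
        · rw [hp]
          exact (Finset.mem_Ioc.1 hc).1
        · have h6 : (c :: l).Pairwise (· ≥ ·) := (List.pairwise_append.1 hpw).2.1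
          rw [List.pairwise_cons] at h6
          exact h6.1 p (by rw [ht]; simp)
      rw [Finset.mem_Ico]
      omega
    calc ∑ c ∈ Ioc a0 a1, lamN c * Pool.Agent.H568.LB.cs a0 a1 F k (c :: l) =
        ∑ c ∈ (Ioc a0 a1).filter fun c => lamN c * Pool.Agent.H568.LB.cs a0 a1 F k (c :: l) ≠ 0,
          lamN c * Pool.Agent.H568.LB.cs a0 a1 F k (c :: l) := (Finset.sum_filter_ne_zero _).symm
      _ ≤ ∑ c ∈ Ico p (p + ((M - l.sum) / (k + 2) + 1 - p)),
          lamN c * Pool.Agent.H568.LB.cs a0 a1 F k (c :: l) := by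
          refine Finset.sum_le_sum_of_subset fun c hc => ?_
          rw [Finset.mem_filter] at hc
          exact h1 c hc.1 hc.2
      _ ≤ ∑ c ∈ Ico p (p + ((M - l.sum) / (k + 2) + 1 - p)),
          lamN c * fs M G k c (l.sum + c) (c :: l) := by
          refine Finset.sum_le_sum fun c _ => Nat.mul_le_mul_left _ ?_
          have h2 := ih c (c :: l) (by rw [List.length_cons]; omega) (Or.inr ⟨l, rfl⟩)
          rwa [List.sum_cons, add_comm c] at h2

/-- the weights vanish unless the cells are possible -/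
theorem okl_imp {m : ℕ} {l : List ℕ} (h : okl m l = true) : l.Pairwise (· ≥ ·) ∧
    10000 * (l.sum + l.headD 0) < 20001 * m + 10000 * (l.length + 1) := by
  unfold okl at h
  rw [Bool.and_eq_true, decide_eq_true_eq, decide_eq_true_eq] at h
  exact h

set_option maxRecDepth 100000 in
theorem n6_num : fs 126 (fun l => ps2 (posd 60) (ivs 60 l) * gN 60 l.sum) 5 16 0 [] ≤
    33 * 10 ^ 42 := by
  decide +kernel

theorem t_N6 : S_N6 := by
  unfold S_N6
  refine le_trans (cs_le_fs (M := 126) (K := 5)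
    (G := fun l => ps2 (posd 60) (ivs 60 l) * gN 60 l.sum) (fun l => ?_) (fun l hl hne => ?_)
    5 16 [] rfl (Or.inl ⟨rfl, rfl⟩)) n6_num
  · refine Nat.mul_le_mul_right _ ?_
    unfold wD
    split_ifs
    · exact le_rfl
    · exact Nat.zero_le _
  · have h1 : okl 60 l = true := by
      by_contra hcon
      apply hne
      show wD 60 l * gN 60 l.sum = 0
      unfold wD
      rw [if_neg hcon, zero_mul]
    obtain ⟨h2, h3⟩ := okl_imp h1
    refine ⟨h2, ?_⟩
    rw [hl] at h3
    omega

end Pool.Agent.H568.LB.PN6
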