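import Mathlib
import Pool.Agent.H568.LB.Stm

/-!
Project LB (helper568), task N7: the kernel computation for seven primes.
-/

set_option autoImplicit false

open Finset Filter Topology Pool.Agent.N792 Pool.Agent.N791.U Pool.Agent.N792.RX5 Pool.Agent.H568 Pool.Agent.H568.LB

namespace Pool.Agent.H568.LB.PN7

/-- the function which is summed -/
def F7 (l : List ℕ) : ℕ := wG 60 l * gN 60 l.sum

/-- the fast sum: `h` is the last cell (or `16`), `s` the sum of the cells -/
def gs : ℕ → ℕ → ℕ → ℕ
  | 0, h, s => if s + h ≤ 127 then 41 * gN 60 s else 0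
  | k + 1, h, s => sN (fun i => lamN (h + i) * gs k (h + i) (s + (h + i)))
      (min 61 ((127 - s) / (k + 2)) + 1 - h)

lemma okl_iff (l : List ℕ) (hl : l.length = 6) :
    okl 60 l = true ↔ l.Pairwise (· ≥ ·) ∧ l.sum + l.headD 0 ≤ 127 := by
  unfold okl
  rw [Bool.and_eq_true, decide_eq_true_iff, decide_eq_true_iff, hl]
  constructor
  · rintro ⟨h1, h2⟩
    exact ⟨h1, by omega⟩
  · rintro ⟨h1, h2⟩
    exact ⟨h1, by omega⟩

lemma cs_zero1 : ∀ (k : ℕ) (l : List ℕ), ¬ l.Pairwise (· ≥ ·) → cs 15 61 F7 k l = 0 := by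
  intro k
  induction k with
  | zero =>
    intro l hl
    show F7 l = 0
    unfold F7 wG
    have : okl 60 l = false := by
      unfold okl
      rw [decide_eq_false hl, Bool.false_and]
    rw [this]
    simp
  | succ k ih =>
    intro l hl
    show ∑ c ∈ Ioc 15 61, lamN c * cs 15 61 F7 k (c :: l) = 0
    refine sum_eq_zero fun c _ => ?_
    rw [ih (c :: l) (fun h => hl (List.pairwise_cons.mp h).2), mul_zero]

lemma head_le {c : ℕ} {l : List ℕ} (hl : (c :: l).Pairwise (· ≥ ·)) : l.headD 0 ≤ c := by
  cases l with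
  | nil => exact Nat.zero_le _
  | cons a l => exact (List.pairwise_cons.mp hl).1 a List.mem_cons_self

lemma cs_zero2 : ∀ (k : ℕ) (l : List ℕ), l.length + k = 6 → 127 < l.sum + (k + 1) * l.headD 0 →
    cs 15 61 F7 k l = 0 := by
  intro k
  induction k with
  | zero =>
    intro l hl h
    show F7 l = 0
    unfold F7 wG
    have : ¬ okl 60 l = true := by
      rw [okl_iff l (by omega)]
      rintro ⟨_, h2⟩
      omega
    rw [if_neg this, zero_mul]
  | succ k ih =>
    intro l hl h
    show ∑ c ∈ Ioc 15 61, lamN c * cs 15 61 F7 k (c :: l) = 0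
    refine sum_eq_zero fun c _ => ?_
    by_cases hc : l.headD 0 ≤ c
    · rw [ih (c :: l) (by rw [List.length_cons]; omega) ?_, mul_zero]
      rw [List.sum_cons]
      show 127 < c + l.sum + (k + 1) * c
      have h1 : (k + 1 + 1) * l.headD 0 ≤ (k + 1 + 1) * c := Nat.mul_le_mul_left _ hc
      have h2 : (k + 1 + 1) * c = (k + 1) * c + c := by ring
      omega
    · rw [cs_zero1 k (c :: l) (fun h' => hc (head_le h')), mul_zero]

lemma le_head {l : List ℕ} (hl : l.Pairwise (· ≥ ·)) : ∀ a ∈ l, a ≤ l.headD 0 := by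
  cases l with
  | nil => intro a ha; exact absurd ha List.not_mem_nil
  | cons b l =>
    intro a ha
    rcases List.mem_cons.mp ha with h | h
    · rw [h]; exact le_rfl
    · exact (List.pairwise_cons.mp hl).1 a h

lemma cs_eq : ∀ (k : ℕ) (l : List ℕ), l.Pairwise (· ≥ ·) → (∀ c ∈ l, 16 ≤ c) → l.length + k = 6 →
    cs 15 61 F7 k l = gs k (max 16 (l.headD 0)) l.sum := by
  intro k
  induction k with
  | zero =>
    intro l hl h16 hlen
    have hh : 16 ≤ l.headD 0 := by
      cases l with
      | nil => simp at hlen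
      | cons a l => exact h16 a List.mem_cons_self
    rw [max_eq_right hh]
    show F7 l = if l.sum + l.headD 0 ≤ 127 then 41 * gN 60 l.sum else 0
    unfold F7 wG
    by_cases h : l.sum + l.headD 0 ≤ 127
    · rw [if_pos h, if_pos ((okl_iff l (by omega)).mpr ⟨hl, h⟩)]
    · rw [if_neg h, if_neg (fun h' => h ((okl_iff l (by omega)).mp h').2), zero_mul]
  | succ k ih =>
    intro l hl h16 hlen
    set h := max 16 (l.headD 0) with hh
    have h1 : 16 ≤ h := le_max_left _ _
    have h2 : l.headD 0 ≤ h := le_max_right _ _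
    have hlt : ∀ c, c < h → 16 ≤ c → c < l.headD 0 := by
      intro c hc hc'
      rcases lt_max_iff.mp hc with h3 | h3
      · omega
      · exact h3
    show ∑ c ∈ Ioc 15 61, lamN c * cs 15 61 F7 k (c :: l) =
      sN (fun i => lamN (h + i) * gs k (h + i) (l.sum + (h + i)))
        (min 61 ((127 - l.sum) / (k + 2)) + 1 - h)
    rw [sN_eq, ← Finset.sum_Ico_eq_sum_range (fun c => lamN c * gs k c (l.sum + c)) h
      (min 61 ((127 - l.sum) / (k + 2)) + 1)]
    have hsub : Ico h (min 61 ((127 - l.sum) / (k + 2)) + 1) ⊆ Ioc 15 61 := by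
      intro c hc
      rw [mem_Ico] at hc
      rw [mem_Ioc]
      have := min_le_left 61 ((127 - l.sum) / (k + 2))
      omega
    rw [← Finset.sum_subset hsub]
    · refine sum_congr rfl fun c hc => ?_
      rw [mem_Ico] at hc
      have hp : (c :: l).Pairwise (· ≥ ·) := by
        rw [List.pairwise_cons]
        exact ⟨fun a ha => (le_head hl a ha).trans (h2.trans hc.1), hl⟩
      have hc16 : 16 ≤ c := h1.trans hc.1
      rw [ih (c :: l) hp (fun a ha => by
        rcases List.mem_cons.mp ha with h' | h'
        · rw [h']; exact hc16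
        · exact h16 a h') (by rw [List.length_cons]; omega)]
      rw [List.sum_cons, add_comm c l.sum]
      show lamN c * gs k (max 16 c) (l.sum + c) = lamN c * gs k c (l.sum + c)
      rw [max_eq_right hc16]
    · intro c hc hc'
      rw [mem_Ioc] at hc
      rw [mem_Ico, not_and_or] at hc'
      by_cases h3 : c < h
      · have h4 := hlt c h3 (by omega)
        rw [cs_zero1 k (c :: l) (fun h' => absurd (head_le h') (by omega)), mul_zero]
      · have h4 : min 61 ((127 - l.sum) / (k + 2)) < c := by
          rcases hc' with h5 | h5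
          · exact absurd h5 (by omega)
          · omega
        have h5 : (127 - l.sum) / (k + 2) < c := by
          rcases min_lt_iff.mp h4 with h6 | h6
          · omega
          · exact h6
        have h6 : 127 - l.sum < c * (k + 2) := (Nat.div_lt_iff_lt_mul (by omega)).mp h5
        rw [cs_zero2 k (c :: l) (by rw [List.length_cons]; omega) ?_, mul_zero]
        rw [List.sum_cons]
        show 127 < c + l.sum + (k + 1) * c
        have h7 : c * (k + 2) = (k + 1) * c + c := by ring
        omega

theorem t_N7 : S_N7 := by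
  have h := cs_eq 6 [] List.Pairwise.nil (fun c hc => absurd hc List.not_mem_nil) rfl
  have h2 : gs 6 16 0 ≤ 93 * 10 ^ 49 := by decide +kernel
  show cs 15 61 F7 6 [] ≤ 93 * 10 ^ 49
  rw [h]
  exact h2

end Pool.Agent.H568.LB.PN7
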