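import Mathlib
import Pool.Agent.H568.LB.Stm

/-!
# LB-NR (subtask 10508 of helper568)
-/

set_option autoImplicit false

open Finset Filter Topology Pool.Agent.N792 Pool.Agent.N791.U Pool.Agent.N792.RX5 Pool.Agent.H568 Pool.Agent.H568.LB
open ArithmeticFunction (moebius)

namespace Pool.Agent.H568.LB.PNR

theorem mur_ne {Q k : ℕ} (h : mur Q k ≠ 0) : Rough Q k := by
  unfold mur at h
  by_contra h2
  rw [rg_not h2, mul_zero] at h
  exact h rfl

theorem rg_ne {Q k : ℕ} (h : rg Q k ≠ 0) : Rough Q k := by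
  by_contra h2
  exact h (rg_not h2)

theorem t_NR : S_NR := by
  intro hG z U y Q V V1 K N zs hU hQU hUV hVy hz0 hzK hmono0 hyN hUUQ hsq hro hne huniq hQ
  unfold H5
  rw [Sv_case1 (fun d q => hG.2.2.1 Q U V d q) hz0 hzK hmono0 hyN hUUQ hsq hro hne huniq hQ]
  unfold l5
  rw [Lt_cons, Lt_cons, Lt_cons, Lt_nil]
  simp only
  rw [T2_zero hro hQ (fun j _ _ h2 => mur_ne h2) (fun j _ _ _ h2 => rg_ne h2),
    T2_zero hro hQ (fun j _ h1 h2 => prime_rough (pi0_ne h2) (by omega)) (fun j _ _ _ h2 => pi2_ne h2),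
    T2_zero hro hQ (fun j _ _ h2 => pi2_ne h2) (fun j _ _ _ h2 => pin_ne h2)]
  ring

end Pool.Agent.H568.LB.PNR
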