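import Mathlib
import Pool.Agent.H568.LB.Stm
import Pool.Agent.H568.Pr

set_option autoImplicit false

open Finset Filter Topology Pool.Agent.N792 Pool.Agent.N791.U Pool.Agent.N792.RX5 Pool.Agent.H568 Pool.Agent.H568.LB

namespace Pool.Agent.H568.LB.PPAR

theorem t_PAR : S_PAR := by
  intro e ε c0 A he he1 hε hε1 hc0 hA
  filter_upwards [Lam.pow_ev 2 (7 / 8 - e) (7 / 8) (by linarith), Lam.pow_ev 2 (1 - 2 * ε) (1 - ε) (by linarith),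
    Lam.pow_ev (1 / c0) (2 - 2 * ε) 2 (by linarith), Lam.pow_ev 2 (1 / 4 + e) (9 / 20) (by linarith),
    Lam.pow_ev 2 (7 / 8) (7 / 8 + 1 / 10000) (by linarith), Lam.pow_ev (2 * A) 2 (2 + 8 * e) (by linarith),
    Lam.pow_ev (2 * A) 2 (2 + 4 * e - ε) (by linarith),
    Lam.pow_ev (8 / c0) (2 - e) 2 (by linarith), Lam.pow_ev A 2 (2 + e) (by linarith),
    Lam.pow_ev 2 (1 / 4 + e) (7 / 8 - e) (by linarith), Lam.pow_ev 2 (7 / 8) (1 - ε) (by linarith),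
    Lam.pow_ev (4 / c0) (9 / 8) (9 / 8 + e) (by linarith),
    eventually_ge_atTop 1] with x h1 h2 h3 h4 h5 h6 h7 h9 h10 h11 h12 h13 hx1
  have hxr : (1 : ℝ) ≤ x := by exact_mod_cast hx1
  have hxp : (0 : ℝ) < x := by linarith
  have x2 : (x : ℝ) ^ (2 : ℝ) = (x : ℝ) ^ 2 := by norm_cast
  rw [x2] at h3 h6 h7 h9 h10
  obtain ⟨U, hU⟩ : ∃ U : ℕ, U = ⌈(x : ℝ) ^ (7 / 8 - e)⌉₊ := ⟨_, rfl⟩
  obtain ⟨Q, hQ⟩ : ∃ Q : ℕ, Q = ⌈(x : ℝ) ^ (1 / 4 + e)⌉₊ := ⟨_, rfl⟩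
  obtain ⟨V1, hV⟩ : ∃ V1 : ℕ, V1 = ⌈(x : ℝ) ^ (7 / 8 : ℝ)⌉₊ := ⟨_, rfl⟩
  obtain ⟨y, hy⟩ : ∃ y : ℕ, y = ⌊(x : ℝ) ^ (1 - ε)⌋₊ := ⟨_, rfl⟩
  obtain ⟨V, hVV⟩ : ∃ V : ℕ, V = ⌊c0 * (x : ℝ) ^ 2 / U⌋₊ := ⟨_, rfl⟩
  have hU1 : (x : ℝ) ^ (7 / 8 - e) ≤ U := by rw [hU]; exact Nat.le_ceil _
  have hQ1 : (x : ℝ) ^ (1 / 4 + e) ≤ Q := by rw [hQ]; exact Nat.le_ceil _
  have hV1 : (x : ℝ) ^ (7 / 8 : ℝ) ≤ V1 := by rw [hV]; exact Nat.le_ceil _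
  have hU2 : (U : ℝ) ≤ 2 * (x : ℝ) ^ (7 / 8 - e) := by rw [hU]; exact Par.ceil_pow hx1 (by linarith)
  have hQ2 : (Q : ℝ) ≤ 2 * (x : ℝ) ^ (1 / 4 + e) := by rw [hQ]; exact Par.ceil_pow hx1 (by linarith)
  have hV2 : (V1 : ℝ) ≤ 2 * (x : ℝ) ^ (7 / 8 : ℝ) := by rw [hV]; exact Par.ceil_pow hx1 (by norm_num)
  have hy1 : (y : ℝ) ≤ (x : ℝ) ^ (1 - ε) := by rw [hy]; exact Nat.floor_le (by positivity)
  have hy2 : (x : ℝ) ^ (1 - ε) < y + 1 := by rw [hy]; exact Nat.lt_floor_add_one _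
  have k2 : (1 : ℝ) ≤ (x : ℝ) ^ (1 - 2 * ε) := Real.one_le_rpow hxr (by linarith)
  have kU : (1 : ℝ) ≤ (x : ℝ) ^ (7 / 8 - e) := Real.one_le_rpow hxr (by linarith)
  have hUp : (0 : ℝ) < U := by linarith
  have hy3 : (x : ℝ) ^ (1 - ε) ≤ 2 * y := by linarith
  have hQ8 : (x : ℝ) ^ (2 + 8 * e) ≤ (Q : ℝ) ^ 8 := by
    calc (x : ℝ) ^ (2 + 8 * e) = ((x : ℝ) ^ (1 / 4 + e)) ^ 8 := by
          rw [← Real.rpow_natCast, ← Real.rpow_mul hxp.le]; congr 1; push_cast; ring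
      _ ≤ (Q : ℝ) ^ 8 := pow_le_pow_left₀ (by positivity) hQ1 8
  have hQ4 : (x : ℝ) ^ (1 + 4 * e) ≤ (Q : ℝ) ^ 4 := by
    calc (x : ℝ) ^ (1 + 4 * e) = ((x : ℝ) ^ (1 / 4 + e)) ^ 4 := by
          rw [← Real.rpow_natCast, ← Real.rpow_mul hxp.le]; congr 1; push_cast; ring
      _ ≤ (Q : ℝ) ^ 4 := pow_le_pow_left₀ (by positivity) hQ1 4
  refine ⟨U, y, Q, V, V1, ?_, ?_, ?_, ?_, hy1, ?_, hU1, hU2.trans h1, ?_, hQ2.trans h4, hV2.trans h5, ?_, ?_, ?_, ?_, ?_, ?_, ?_, ?_⟩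
  · have : (1 : ℝ) ≤ U := kU.trans hU1
    exact_mod_cast this
  · have : (Q : ℝ) ≤ U := (hQ2.trans h11).trans hU1
    exact_mod_cast this
  · have h : (x : ℝ) ^ (7 / 8 - e) ≤ (x : ℝ) ^ (7 / 8 : ℝ) := Real.rpow_le_rpow_of_exponent_le hxr (by linarith)
    rw [hU, hV]
    exact Nat.ceil_le_ceil h
  · rw [hy]
    exact Nat.le_floor (hV2.trans h12)
  · linarith
  · exact (Real.rpow_le_rpow_of_exponent_le hxr (by linarith)).trans hQ1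
  · -- `V ≥ x^(9/8)`
    have hf : c0 * (x : ℝ) ^ 2 / U < V + 1 := by rw [hVV]; exact Nat.lt_floor_add_one _
    have k3 : (1 : ℝ) ≤ (x : ℝ) ^ (9 / 8 : ℝ) := Real.one_le_rpow hxr (by norm_num)
    rw [div_mul_eq_mul_div, div_le_iff₀ hc0] at h13
    have e1 : (x : ℝ) ^ (9 / 8 + e) * (x : ℝ) ^ (7 / 8 - e) = (x : ℝ) ^ 2 := by
      rw [← Real.rpow_add hxp, ← x2]; congr 1; ring
    have e2 : 2 * (x : ℝ) ^ (9 / 8 : ℝ) ≤ c0 * (x : ℝ) ^ 2 / U := by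
      rw [le_div_iff₀ hUp]
      calc 2 * (x : ℝ) ^ (9 / 8 : ℝ) * U ≤ 2 * (x : ℝ) ^ (9 / 8 : ℝ) * (2 * (x : ℝ) ^ (7 / 8 - e)) := by gcongr
        _ = (4 * (x : ℝ) ^ (9 / 8 : ℝ)) * (x : ℝ) ^ (7 / 8 - e) := by ring
        _ ≤ ((x : ℝ) ^ (9 / 8 + e) * c0) * (x : ℝ) ^ (7 / 8 - e) := by gcongr
        _ = c0 * ((x : ℝ) ^ (9 / 8 + e) * (x : ℝ) ^ (7 / 8 - e)) := by ring
        _ = c0 * (x : ℝ) ^ 2 := by rw [e1]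
    linarith
  · -- `U V ≤ c0 x²`
    push_cast
    have hf : (V : ℝ) ≤ c0 * (x : ℝ) ^ 2 / U := by rw [hVV]; exact Nat.floor_le (by positivity)
    rw [le_div_iff₀ hUp] at hf
    linarith
  · push_cast
    calc (Q : ℝ) * Q ≤ (x : ℝ) ^ (9 / 20 : ℝ) * (x : ℝ) ^ (9 / 20 : ℝ) :=
          mul_le_mul (hQ2.trans h4) (hQ2.trans h4) (Nat.cast_nonneg _) (by positivity)
      _ = (x : ℝ) ^ (9 / 10 : ℝ) := by rw [← Real.rpow_add hxp]; norm_num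
  · push_cast
    rw [div_mul_eq_mul_div, one_mul, div_le_iff₀ hc0] at h3
    calc (y : ℝ) * y ≤ (x : ℝ) ^ (1 - ε) * (x : ℝ) ^ (1 - ε) := by gcongr
      _ = (x : ℝ) ^ (2 - 2 * ε) := by rw [← Real.rpow_add hxp]; congr 1; ring
      _ ≤ c0 * x ^ 2 := by linarith
  · push_cast
    have : (0 : ℝ) < (x : ℝ) ^ 2 := by positivity
    have : A * (x : ℝ) ^ 2 < 2 * A * (x : ℝ) ^ 2 := by nlinarith
    linarith
  · push_cast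
    rw [div_mul_eq_mul_div, div_le_iff₀ hc0] at h9
    calc (U : ℝ) * U * Q ≤ (2 * (x : ℝ) ^ (7 / 8 - e)) * (2 * (x : ℝ) ^ (7 / 8 - e)) * (2 * (x : ℝ) ^ (1 / 4 + e)) := by gcongr
      _ = 8 * ((x : ℝ) ^ (7 / 8 - e) * (x : ℝ) ^ (7 / 8 - e) * (x : ℝ) ^ (1 / 4 + e)) := by ring
      _ = 8 * (x : ℝ) ^ (2 - e) := by
          rw [← Real.rpow_add hxp, ← Real.rpow_add hxp]
          congr 2
          ring
      _ ≤ c0 * x ^ 2 := by linarith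
  · push_cast
    calc A * (x : ℝ) ^ 2 ≤ (x : ℝ) ^ (2 + e) := h10
      _ = (x : ℝ) ^ (7 / 8 : ℝ) * (x : ℝ) ^ (7 / 8 : ℝ) * (x : ℝ) ^ (1 / 4 + e) := by
          rw [← Real.rpow_add hxp, ← Real.rpow_add hxp]; congr 1; ring
      _ ≤ (V1 : ℝ) * V1 * Q := by gcongr
  · push_cast
    have e3 : (x : ℝ) ^ (1 - ε) * (x : ℝ) ^ (1 + 4 * e) ≤ (2 * y) * (Q : ℝ) ^ 4 := by gcongr
    have e4 : (x : ℝ) ^ (1 - ε) * (x : ℝ) ^ (1 + 4 * e) = (x : ℝ) ^ (2 + 4 * e - ε) := by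
      rw [← Real.rpow_add hxp]; congr 1; ring
    rw [e4] at e3
    linarith

end Pool.Agent.H568.LB.PPAR
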