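import Mathlib
import Pool.Agent.H568.LB.Stm

/-!
The sieve sum at a rough number.
-/

set_option autoImplicit false

open Finset Filter Topology Pool.Agent.N792 Pool.Agent.N791.U Pool.Agent.N792.RX5 Pool.Agent.H568 Pool.Agent.H568.LB

namespace Pool.Agent.H568.LB.PSVQ

open ArithmeticFunction (moebius)

theorem svq_bigp {Q j : ℕ} (h : Rough Q j) : bigp Q j = j.primeFactors := by
  unfold bigp
  apply filter_true_of_mem
  intro p hp
  rw [Nat.mem_primeFactors] at hp
  exact h.2 p hp.1 hp.2.1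

/-- the prime factors form a dropped pair -/
def Dp (U V j : ℕ) : Prop := ∃ q p, j.primeFactors = {q, p} ∧ dr U V q p

theorem dp_facts {U V j : ℕ} (hj : Squarefree j) {q p : ℕ} (h : j.primeFactors = {q, p})
    (hd : dr U V q p) : q.Prime ∧ p.Prime ∧ j = q * p ∧ moebius j = 1 := by
  have hq : q.Prime := Nat.prime_of_mem_primeFactors (n := j) (by rw [h]; simp)
  have hp : p.Prime := Nat.prime_of_mem_primeFactors (n := j) (by rw [h]; simp)
  have hne : q ≠ p := hd.1.ne
  have hj2 : j = q * p := by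
    have h1 := Nat.prod_primeFactors_of_squarefree hj
    rw [h, prod_pair hne] at h1
    exact h1.symm
  refine ⟨hq, hp, hj2, ?_⟩
  have hco : Nat.Coprime q p := (Nat.coprime_primes hq hp).2 hne
  rw [hj2, ArithmeticFunction.isMultiplicative_moebius.map_mul_of_coprime hco,
    ArithmeticFunction.moebius_apply_prime hq, ArithmeticFunction.moebius_apply_prime hp]
  norm_num

theorem pf_mul {q p : ℕ} (hq : q.Prime) (hp : p.Prime) : (q * p).primeFactors = {q, p} := by
  rw [Nat.primeFactors_mul hq.ne_zero hp.ne_zero, hq.primeFactors, hp.primeFactors]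
  rfl

open Classical in
theorem g5_eq {Q U V j : ℕ} (hj : Squarefree j) (hr : Rough Q j) :
    g5 Q U V j = (moebius j : ℝ) - (if Dp U V j then 1 else 0) := by
  unfold g5
  rw [svq_bigp hr]
  by_cases h : Dp U V j
  · obtain ⟨q, p, h1, h2⟩ := h
    rw [if_pos ⟨q, p, h1, h2⟩, if_pos ⟨q, p, h1, h2⟩, (dp_facts hj h1 h2).2.2.2]
    norm_num
  · rw [if_neg h, sub_zero]
    exact if_neg h

open Classical in
theorem dn_eq {U V N : ℕ} (hN : Squarefree N) (hN0 : N ≠ 0) :
    #((N.divisors.filter (fun j => j ≤ U)).filter (fun j => Dp U V j)) = Dn U V N := by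
  unfold Dn
  symm
  refine card_bij (fun t _ => t.1 * t.2) ?_ ?_ ?_
  · rintro ⟨q, p⟩ ht
    rw [mem_filter, mem_product] at ht
    obtain ⟨⟨hq, hp⟩, hd⟩ := ht
    simp only at hq hp hd
    have hq' := Nat.prime_of_mem_primeFactors hq
    have hp' := Nat.prime_of_mem_primeFactors hp
    have hco : Nat.Coprime q p := (Nat.coprime_primes hq' hp').2 hd.1.ne
    have hdv : q * p ∣ N :=
      hco.mul_dvd_of_dvd_of_dvd (Nat.dvd_of_mem_primeFactors hq) (Nat.dvd_of_mem_primeFactors hp)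
    rw [mem_filter, mem_filter, Nat.mem_divisors]
    exact ⟨⟨⟨hdv, hN0⟩, hd.2.1⟩, q, p, pf_mul hq' hp', hd⟩
  · rintro ⟨q, p⟩ ht ⟨q', p'⟩ ht' he
    rw [mem_filter, mem_product] at ht ht'
    obtain ⟨⟨hq, hp⟩, hd⟩ := ht
    obtain ⟨⟨hq1, hp1⟩, hd1⟩ := ht'
    simp only at hq hp hd hq1 hp1 hd1 he
    have e1 := pf_mul (Nat.prime_of_mem_primeFactors hq) (Nat.prime_of_mem_primeFactors hp)
    have e2 := pf_mul (Nat.prime_of_mem_primeFactors hq1) (Nat.prime_of_mem_primeFactors hp1)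
    rw [he, e2] at e1
    have m1 : q ∈ ({q', p'} : Finset ℕ) := by rw [e1]; simp
    have m2 : p ∈ ({q', p'} : Finset ℕ) := by rw [e1]; simp
    rw [mem_insert, mem_singleton] at m1 m2
    have l1 := hd.1
    have l2 := hd1.1
    rw [Prod.mk.injEq]
    rcases m1 with m1 | m1 <;> rcases m2 with m2 | m2 <;> omega
  · intro j hj
    rw [mem_filter, mem_filter, Nat.mem_divisors] at hj
    obtain ⟨⟨⟨hjN, _⟩, _⟩, q, p, h1, h2⟩ := hj
    have hjs : Squarefree j := hN.squarefree_of_dvd hjN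
    obtain ⟨hq, hp, hj2, _⟩ := dp_facts hjs h1 h2
    refine ⟨(q, p), ?_, hj2.symm⟩
    rw [mem_filter, mem_product]
    refine ⟨⟨?_, ?_⟩, h2⟩
    · exact Nat.mem_primeFactors.2 ⟨hq, (Dvd.intro p hj2.symm).trans hjN, hN0⟩
    · exact Nat.mem_primeFactors.2 ⟨hp, (Dvd.intro_left q hj2.symm).trans hjN, hN0⟩

theorem t_SVQ : S_SVQ := by
  classical
  intro z U y Q V K N zs hzK hmono hro hsq hrQ
  rw [Sv_case2 hzK hmono hro hrQ]
  have h1 : ∀ j ∈ N.divisors.filter (fun j => j ≤ U),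
      g5 Q U V j = (moebius j : ℝ) - (if Dp U V j then 1 else 0) := by
    intro j hj
    rw [mem_filter, Nat.mem_divisors] at hj
    exact g5_eq (hsq.squarefree_of_dvd hj.1.1) (SwR.rough_of_dvd hrQ hj.1.1)
  rw [sum_congr rfl h1, sum_sub_distrib, sum_boole, dn_eq hsq hro.1]

end Pool.Agent.H568.LB.PSVQ
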