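import Mathlib
import Pool.Agent.H568.LB.Stm

set_option autoImplicit false

open Finset Filter Topology Pool.Agent.N792 Pool.Agent.N791.U Pool.Agent.N792.RX5 Pool.Agent.H568 Pool.Agent.H568.LB

namespace Pool.Agent.H568.LB.PT2S

open ArithmeticFunction (moebius)

lemma Pn_eq {N U : ℕ} (hsq : Squarefree N) :
    Pn U N = #(N.divisors.filter (fun j => w j = 2 ∧ j ≤ U)) := by
  unfold Pn
  refine card_bij (fun t _ => t.1 * t.2) ?_ ?_ ?_
  · rintro ⟨p, q⟩ ht
    rw [mem_filter, mem_product, Nat.mem_primeFactors, Nat.mem_primeFactors] at ht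
    obtain ⟨⟨⟨hp, hpN, hN⟩, hq, hqN, _⟩, hpq, hU⟩ := ht
    simp only at hp hpN hq hqN hpq hU
    have hc : Nat.Coprime p q := (Nat.coprime_primes hp hq).2 hpq.ne
    rw [mem_filter, Nat.mem_divisors]
    refine ⟨⟨hc.mul_dvd_of_dvd_of_dvd hpN hqN, hN⟩, ?_, hU⟩
    show w (p * q) = 2
    rw [w, hc.primeFactors_mul, card_union_of_disjoint hc.disjoint_primeFactors, hp.primeFactors,
      hq.primeFactors]
    simp
  · rintro ⟨p, q⟩ ht ⟨p', q'⟩ ht' h
    rw [mem_filter, mem_product, Nat.mem_primeFactors, Nat.mem_primeFactors] at ht ht'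
    obtain ⟨⟨⟨hp, hpN, hN⟩, hq, hqN, _⟩, hpq, hU⟩ := ht
    obtain ⟨⟨⟨hp', hpN', _⟩, hq', hqN', _⟩, hpq', hU'⟩ := ht'
    simp only at hp hpN hq hqN hpq hU hp' hpN' hq' hqN' hpq' hU' h
    have h1 : p ∣ p' * q' := h ▸ Nat.dvd_mul_right p q
    rcases hp.dvd_mul.1 h1 with h2 | h2
    · have h3 := (Nat.prime_dvd_prime_iff_eq hp hp').1 h2
      subst h3
      have h4 := Nat.eq_of_mul_eq_mul_left hp.pos h
      rw [h4]
    · have h3 := (Nat.prime_dvd_prime_iff_eq hp hq').1 h2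
      subst h3
      rw [mul_comm] at h
      have h4 := Nat.eq_of_mul_eq_mul_right hp.pos h
      omega
  · intro j hj
    rw [mem_filter, Nat.mem_divisors] at hj
    obtain ⟨⟨hjN, hN⟩, hw, hU⟩ := hj
    have hjs := hsq.squarefree_of_dvd hjN
    obtain ⟨p, q, hpq, h1⟩ := card_eq_two.1 hw
    have h2 := Nat.prod_primeFactors_of_squarefree hjs
    rw [h1, prod_pair hpq] at h2
    have hp : p ∈ j.primeFactors := by rw [h1]; simp
    have hq : q ∈ j.primeFactors := by rw [h1]; simp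
    have hp' := Nat.primeFactors_mono hjN hN hp
    have hq' := Nat.primeFactors_mono hjN hN hq
    rcases Nat.lt_or_gt_of_ne hpq with h3 | h3
    · refine ⟨(p, q), ?_, h2⟩
      rw [mem_filter, mem_product]
      exact ⟨⟨hp', hq'⟩, h3, by rw [h2]; exact hU⟩
    · have h4 : q * p = j := by rw [mul_comm]; exact h2
      refine ⟨(q, p), ?_, h4⟩
      rw [mem_filter, mem_product]
      exact ⟨⟨hq', hp'⟩, h3, by rw [h4]; exact hU⟩

theorem t_T2S : S_T2S := by
  intro z U y Q V1 N hUy hVy hro hsq hr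
  refine ⟨?_, ?_, ?_⟩
  · rw [T2_eq hro, sum_filter, sum_filter, ← sum_sub_distrib]
    apply sum_congr rfl
    intro j hj
    rw [Nat.mem_divisors] at hj
    have h1 : rg Q j = 1 := rg_of (SwR.rough_of_dvd hr hj.1)
    have h2 : rg Q (N / j) = 1 := rg_of (SwR.rough_of_dvd hr (Nat.div_dvd_of_dvd hj.1))
    rw [mur, h1, h2, mul_one, mul_one]
    by_cases h3 : j ≤ U
    · rw [if_neg (fun h => absurd h3 (not_le.2 h.1)), if_pos (h3.trans hUy), if_pos h3, sub_self]
    · rw [if_neg h3, sub_zero]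
      by_cases h4 : j ≤ y
      · rw [if_pos ⟨not_le.1 h3, h4⟩, if_pos h4]
      · rw [if_neg (fun h => h4 h.2), if_neg h4]
  · rw [T2_w (a := 1) (b := 2) hro hsq (fun j hj => pi0_w (hsq.squarefree_of_dvd hj))
      (fun j hj => pi2_w (hsq.squarefree_of_dvd hj) (SwR.rough_of_dvd hr hj))]
    have e : N.divisors.filter (fun j => w j = 1 ∧ V1 < j ∧ j ≤ y) =
        N.primeFactors.filter (fun p => V1 < p ∧ p ≤ y) := by
      rw [← c1 hsq, filter_filter]
    rw [e]
  · rw [T2_w (a := 2) (b := 3) hro hsq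
      (fun j hj => pi2_w (hsq.squarefree_of_dvd hj) (SwR.rough_of_dvd hr hj))
      (fun j hj => pin_w (hsq.squarefree_of_dvd hj) (SwR.rough_of_dvd hr hj))]
    have h1 := split1 N.divisors (a := 2) hUy
    have h2 : (Pn y N : ℝ) - Pn U N =
        (#(N.divisors.filter (fun j => w j = 2 ∧ U < j ∧ j ≤ y)) : ℝ) := by
      rw [Pn_eq hsq, Pn_eq hsq, ← h1]
      push_cast
      ring
    rw [h2]

end Pool.Agent.H568.LB.PT2S
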