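import Mathlib
import Pool.Agent.H568.LB.Stm

set_option autoImplicit false

open Finset Filter Topology Pool.Agent.N792 Pool.Agent.N791.U Pool.Agent.N792.RX5 Pool.Agent.H568 Pool.Agent.H568.LB

namespace Pool.Agent.H568.LB.PTRB

open Pool.Agent.H469R2.NK (e)

/-- the exponential sum, as a sum over pairs with a shift -/
theorem exp_shift (a : ℕ) (R S : Finset ℕ) (β : ℝ) (h : ℕ) :
    ∑ i ∈ R ×ˢ S, (((1 : ℝ) : ℝ) : ℂ) * e (h * (√(((i.1 * i.2 : ℕ) : ℝ) / a) - β)) =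
      e (-(h * β)) * ∑ r ∈ R, ∑ s ∈ S, e (h / √(a : ℝ) * (√(r : ℝ) * √(s : ℝ))) := by
  rw [Finset.sum_product, mul_comm, Finset.sum_mul]
  refine Finset.sum_congr rfl fun r _ => ?_
  rw [Finset.sum_mul]
  refine Finset.sum_congr rfl fun s _ => ?_
  rw [← Pool.Agent.H469R2.NK.e_add, Complex.ofReal_one, one_mul]
  congr 1
  push_cast
  rw [Real.sqrt_div (by positivity), Real.sqrt_mul (Nat.cast_nonneg r)]
  ring

/-- the case `J ≤ K` -/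
theorem tri_le (hq4 : Q4) (a m : ℕ) (ha : 1 ≤ a) (hm : 1 ≤ m) (CE CB : ℝ) (hCE : 0 < CE)
    (hCB : 0 < CB)
    (HE : ∀ ε : ℝ, 0 ≤ ε → ∀ x J K : ℕ,
      1 ≤ x → 1 ≤ J → 1 ≤ K → (J : ℝ) * K ≤ m * (x : ℝ) ^ 2 → (J : ℝ) ≤ m * (x : ℝ) ^ (1 + ε) →
      (K : ℝ) ≤ m * (x : ℝ) ^ (1 + ε) → (x : ℝ) ^ (1 - ε) ≤ 4 * K →
      ∀ R ⊆ Ioc J (2 * J), ∀ S ⊆ Ioc K (2 * K), ∀ h : ℕ, 1 ≤ h →
      ‖∑ r ∈ R, ∑ s ∈ S, e (h / √(a : ℝ) * (√(r : ℝ) * √(s : ℝ)))‖ ≤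
        CE * (x : ℝ) ^ (3 / 2 + ε) * √(h : ℝ))
    (HB : ∀ ε : ℝ, 0 ≤ ε → ∀ x J K : ℕ, 1 ≤ x → 4 * a ≤ J → J ≤ K →
      (J : ℝ) * K ≤ m * (x : ℝ) ^ 2 → (K : ℝ) ≤ m * (x : ℝ) ^ (1 + ε) → ∀ R ⊆ Ioc J (2 * J),
      ∀ S ⊆ Ioc K (2 * K),
      ∀ (H : ℕ) (ω : ℕ → ℂ), 1 ≤ H → H ≤ J → (∀ h, ‖ω h‖ ≤ 1) →
      ‖∑ h ∈ Ico H (2 * H), ω h * ∑ r ∈ R, ∑ s ∈ S, e (h / √(a : ℝ) * (√(r : ℝ) * √(s : ℝ)))‖ ≤
        CB * ((x : ℝ) ^ (3 / 2 + ε) * H + (x : ℝ) ^ (1 + ε) * (H : ℝ) ^ 2))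
    (ε : ℝ) (hε0 : 0 ≤ ε) (hε1 : ε ≤ 1) (x J K : ℕ) (hx : 1 ≤ x) (hJa : 4 * a ≤ J) (hJK : J ≤ K)
    (hJKm : (J : ℝ) * K ≤ m * (x : ℝ) ^ 2) (hJm : (J : ℝ) ≤ m * (x : ℝ) ^ (1 + ε))
    (hKm : (K : ℝ) ≤ m * (x : ℝ) ^ (1 + ε)) (hKx : (x : ℝ) ^ (1 - ε) ≤ 4 * K)
    (R S : Finset ℕ) (hR : R ⊆ Ioc J (2 * J)) (hS : S ⊆ Ioc K (2 * K)) (β δ : ℝ) (hδ : 0 < δ)
    (hδ2 : δ ≤ 1 / 2) :
    ∑ r ∈ R, ∑ s ∈ S, tri δ (√(((r * s : ℕ) : ℝ) / a) - β) ≤
      δ * (#R * #S) + 20 * (CE + CB + CB * (2 + Real.log m) + m) *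
        ((x : ℝ) ^ (3 / 2 + ε) + (x : ℝ) ^ (1 + ε) * (1 + Real.log x) / δ) := by
  have hJ : 1 ≤ J := by omega
  have hK : 1 ≤ K := by omega
  have hxr : (1 : ℝ) ≤ x := by exact_mod_cast hx
  have hxp : (0 : ℝ) < x := by linarith
  have hJr : (1 : ℝ) ≤ J := by exact_mod_cast hJ
  have hKr : (1 : ℝ) ≤ K := by exact_mod_cast hK
  have hmr : (1 : ℝ) ≤ m := by exact_mod_cast hm
  have hlx : 0 ≤ Real.log x := Real.log_nonneg hxr
  have hlm : 0 ≤ Real.log m := Real.log_nonneg hmr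
  obtain ⟨X, hX⟩ : ∃ X : ℝ, X = (x : ℝ) ^ (3 / 2 + ε) := ⟨_, rfl⟩
  obtain ⟨Y, hY⟩ : ∃ Y : ℝ, Y = (x : ℝ) ^ (1 + ε) := ⟨_, rfl⟩
  have hX0 : 0 < X := by rw [hX]; exact Real.rpow_pos_of_pos hxp _
  have hY0 : 0 < Y := by rw [hY]; exact Real.rpow_pos_of_pos hxp _
  have key := hq4 (R ×ˢ S) (fun _ => 1) (fun i => √(((i.1 * i.2 : ℕ) : ℝ) / a) - β) δ
    (2 * CE * X) (CB * X) (CB * Y) ((J : ℝ) * K) 1 J hδ hδ2 le_rfl hJ (by positivity) (by positivity)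
    (by positivity) (by positivity) (by
      intro h h1 h2
      have hh1 : (1 : ℝ) ≤ h := by exact_mod_cast h1
      have hh2 : (h : ℝ) ≤ 2 := by
        have : h ≤ 2 := by omega
        exact_mod_cast this
      have hsq : 0 < √(h : ℝ) := Real.sqrt_pos.2 (by linarith)
      rw [exp_shift, norm_mul, Pool.Agent.H469R2.NK.norm_e, one_mul, le_div_iff₀ hsq]
      have h3 := HE ε hε0 x J K hx hJ hK hJKm hJm hKm hKx R hR S hS h h1
      rw [← hX] at h3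
      calc ‖∑ r ∈ R, ∑ s ∈ S, e (h / √(a : ℝ) * (√(r : ℝ) * √(s : ℝ)))‖ * √(h : ℝ)
          ≤ CE * X * √(h : ℝ) * √(h : ℝ) := mul_le_mul_of_nonneg_right h3 hsq.le
        _ = CE * X * h := by rw [mul_assoc, Real.mul_self_sqrt (by linarith)]
        _ ≤ CE * X * 2 := mul_le_mul_of_nonneg_left hh2 (by positivity)
        _ = 2 * CE * X := by ring) (by
      intro H ω hH1 hHJ hω
      have h3 := HB ε hε0 x J K hx hJa hJK hJKm hKm R hR S hS H (fun h => ω h * e (-(h * β))) hH1 hHJ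
        (by
          intro h
          rw [norm_mul, Pool.Agent.H469R2.NK.norm_e, mul_one]
          exact hω h)
      rw [← hX, ← hY] at h3
      have h4 : ∑ h ∈ Ico H (2 * H), ω h * ∑ i ∈ R ×ˢ S, (((1 : ℝ) : ℝ) : ℂ) *
          e (h * (√(((i.1 * i.2 : ℕ) : ℝ) / a) - β)) =
          ∑ h ∈ Ico H (2 * H), ω h * e (-(h * β)) *
            ∑ r ∈ R, ∑ s ∈ S, e (h / √(a : ℝ) * (√(r : ℝ) * √(s : ℝ))) := by
        refine Finset.sum_congr rfl fun h _ => ?_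
        rw [exp_shift, mul_assoc]
      rw [h4]
      refine h3.trans (le_of_eq ?_)
      ring) (by
      intro h
      refine (norm_sum_le _ _).trans ?_
      have h5 : ∀ i ∈ R ×ˢ S, ‖(((1 : ℝ) : ℝ) : ℂ) *
          e (h * (√(((i.1 * i.2 : ℕ) : ℝ) / a) - β))‖ ≤ 1 := by
        intro i _
        rw [Complex.ofReal_one, one_mul, Pool.Agent.H469R2.NK.norm_e]
      refine (Finset.sum_le_sum h5).trans ?_
      rw [Finset.sum_const, Finset.card_product, nsmul_eq_mul, mul_one]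
      push_cast
      have c1 : #R ≤ J := by
        have := card_le_card hR
        rw [Nat.card_Ioc] at this
        omega
      have c2 : #S ≤ K := by
        have := card_le_card hS
        rw [Nat.card_Ioc] at this
        omega
      have c1' : (#R : ℝ) ≤ J := by exact_mod_cast c1
      have c2' : (#S : ℝ) ≤ K := by exact_mod_cast c2
      exact mul_le_mul c1' c2' (Nat.cast_nonneg _) (by linarith))
  have k1 := (abs_le.1 key).2
  simp only [one_mul, Finset.sum_const, Finset.card_product, nsmul_eq_mul, mul_one] at k1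
  rw [Finset.sum_product] at k1
  rw [← hX, ← hY]
  have b1 : 2 * CE * X * (δ * √((1 : ℕ) : ℝ)) ≤ CE * X := by
    rw [Nat.cast_one, Real.sqrt_one, mul_one]
    have : 0 ≤ CE * X := by positivity
    nlinarith
  have b2 : 1 + Real.log J ≤ (2 + Real.log m) * (1 + Real.log x) := by
    have h1 : Real.log J ≤ Real.log m + 2 * Real.log x := by
      have h2 : Real.log J ≤ Real.log (m * (x : ℝ) ^ (1 + ε)) :=
        Real.log_le_log (by linarith) hJm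
      rw [Real.log_mul (by linarith) (Real.rpow_pos_of_pos hxp _).ne', Real.log_rpow hxp] at h2
      nlinarith
    nlinarith [mul_nonneg hlm hlx]
  have b3 : CB * Y * (1 + Real.log J) / δ ≤
      CB * (2 + Real.log m) * (Y * (1 + Real.log x) / δ) := by
    have : CB * (2 + Real.log m) * (Y * (1 + Real.log x) / δ) =
        CB * Y * ((2 + Real.log m) * (1 + Real.log x)) / δ := by ring
    rw [this]
    exact div_le_div_of_nonneg_right (mul_le_mul_of_nonneg_left b2 (by positivity)) hδ.le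
  have b4 : (J : ℝ) * K / (δ * J) ≤ m * (Y * (1 + Real.log x) / δ) := by
    have h1 : (J : ℝ) * K / (δ * J) = K / δ := by
      field_simp
    have h2 : m * (Y * (1 + Real.log x) / δ) = m * Y * (1 + Real.log x) / δ := by ring
    rw [h1, h2]
    refine div_le_div_of_nonneg_right ?_ hδ.le
    rw [← hY] at hKm
    have : 0 ≤ (m : ℝ) * Y * Real.log x := by positivity
    linarith
  have hZ : 0 ≤ Y * (1 + Real.log x) / δ := by positivity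
  obtain ⟨Z, hZd⟩ : ∃ Z : ℝ, Z = Y * (1 + Real.log x) / δ := ⟨_, rfl⟩
  rw [← hZd] at b3 b4 hZ ⊢
  have c1 : 0 ≤ (CB * (2 + Real.log m) + m) * X := by positivity
  have c2 : 0 ≤ (CE + CB) * Z := by positivity
  have k2 : ∑ r ∈ R, ∑ s ∈ S, tri δ (√(((r * s : ℕ) : ℝ) / a) - β) - δ * (#R * #S) ≤
      20 * (CE * X + CB * X + CB * (2 + Real.log m) * Z + m * Z) := by
    have k3 := k1.trans (mul_le_mul_of_nonneg_left (add_le_add (add_le_add (add_le_add b1 le_rfl) b3) b4)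
      (by norm_num : (0 : ℝ) ≤ 20))
    push_cast at k3 ⊢
    exact k3
  nlinarith

theorem t_TRB (hq1 : Q1) (hq4 : Q4) (hB : S_BLK) : S_TRB := by
  intro a m ha hm
  obtain ⟨CE, hCE, HE⟩ := Pool.Agent.N792.Gap.exp_bound (a : ℝ) (m : ℝ) (by exact_mod_cast ha)
    (by exact_mod_cast hm)
  obtain ⟨CB, hCB, HB⟩ := hB hq1 a m ha hm
  have hmr : (1 : ℝ) ≤ m := by exact_mod_cast hm
  have hlm : 0 ≤ Real.log m := Real.log_nonneg hmr
  refine ⟨20 * (CE + CB + CB * (2 + Real.log m) + m), by positivity, ?_⟩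
  intro ε hε0 hε1 x J K hx hJa hKa hJKm hJm hKm hJx hKx R hR S hS β δ hδ hδ2
  rcases le_total J K with h | h
  · exact tri_le hq4 a m ha hm CE CB hCE hCB HE HB ε hε0 hε1 x J K hx hJa h hJKm hJm hKm hKx R S hR hS
      β δ hδ hδ2
  · have h1 := tri_le hq4 a m ha hm CE CB hCE hCB HE HB ε hε0 hε1 x K J hx hKa h
      (by rw [mul_comm]; exact hJKm) hKm hJm hJx S R hS hR β δ hδ hδ2
    rw [Finset.sum_comm] at h1
    have h2 : ∑ r ∈ R, ∑ s ∈ S, tri δ (√(((r * s : ℕ) : ℝ) / a) - β) =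
        ∑ r ∈ R, ∑ s ∈ S, tri δ (√(((s * r : ℕ) : ℝ) / a) - β) := by
      refine Finset.sum_congr rfl fun r _ => Finset.sum_congr rfl fun s _ => ?_
      rw [Nat.mul_comm r s]
    rw [h2]
    rw [mul_comm (#S : ℝ) (#R : ℝ)] at h1
    exact h1

end Pool.Agent.H568.LB.PTRB
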