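import Mathlib
import Pool.Agent.H568.LB.Stm
import Pool.Agent.H568.Mn5

/-!
The pointwise bound of the loss by the weights of the cells.
-/

set_option autoImplicit false

open Finset Filter Topology Pool.Agent.N792 Pool.Agent.N791.U Pool.Agent.N792.RX5 Pool.Agent.H568 Pool.Agent.H568.LB

namespace Pool.Agent.H568.LB.PWB

/-! ### Sums over pairs -/

lemma ps2_le {α β : Type} (J : α → β) (f : α → α → ℕ) (g : β → β → ℕ) (t : List α)
    (h : ∀ p ∈ t, ∀ q ∈ t, f q p ≤ g (J q) (J p)) : ps2 f t ≤ ps2 g (t.map J) := by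
  induction t with
  | nil => simp [ps2]
  | cons a t ih =>
    simp only [ps2, List.map_cons, List.map_map]
    refine add_le_add ?_ (ih fun p hp q hq => h p (List.mem_cons_of_mem _ hp) q
      (List.mem_cons_of_mem _ hq))
    exact List.sum_le_sum fun q hq => h a List.mem_cons_self q (List.mem_cons_of_mem _ hq)

lemma ps2_cons_le {α β : Type} (J : α → β) (f : α → α → ℕ) (g : β → β → ℕ) (t : List α) (P : α)
    (I : β) (h0 : ∀ q ∈ t, f q P ≤ g (J q) I)
    (h : ∀ p ∈ t, ∀ q ∈ t, f q p ≤ g (J q) (J p)) : ps2 f (P :: t) ≤ ps2 g (I :: t.map J) := by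
  simp only [ps2, List.map_map]
  exact add_le_add (List.sum_le_sum fun q hq => h0 q hq) (ps2_le J f g t h)

lemma sum3 {α : Type} (f1 f2 f3 : α → ℕ) (t : List α) (h : ∀ q ∈ t, f3 q + f1 q ≤ 2 * f2 q) :
    (t.map f3).sum + (t.map f1).sum ≤ 2 * (t.map f2).sum := by
  induction t with
  | nil => simp
  | cons a t ih =>
    have h1 := h a List.mem_cons_self
    have h2 := ih fun q hq => h q (List.mem_cons_of_mem _ hq)
    simp only [List.map_cons, List.sum_cons]
    omega

lemma ps2_le3 {α β : Type} (J : α → β) (f1 f2 : α → α → ℕ) (g : β → β → ℕ) (t : List α)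
    (h : ∀ p ∈ t, ∀ q ∈ t, g (J q) (J p) + f1 q p ≤ 2 * f2 q p) :
    ps2 g (t.map J) + ps2 f1 t ≤ 2 * ps2 f2 t := by
  induction t with
  | nil => simp [ps2]
  | cons a t ih =>
    have h1 := ih fun p hp q hq => h p (List.mem_cons_of_mem _ hp) q (List.mem_cons_of_mem _ hq)
    have h2 := sum3 (fun q => f1 q a) (fun q => f2 q a) (fun q => g (J q) (J a)) t
      fun q hq => h a List.mem_cons_self q (List.mem_cons_of_mem _ hq)
    simp only [ps2, List.map_cons, List.map_map, Function.comp_def]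
    omega

lemma ps2_cons_le3 {α β : Type} (J : α → β) (f1 f2 : α → α → ℕ) (g : β → β → ℕ) (t : List α)
    (P : α) (I : β) (h0 : ∀ q ∈ t, g (J q) I + f1 q P ≤ 2 * f2 q P)
    (h : ∀ p ∈ t, ∀ q ∈ t, g (J q) (J p) + f1 q p ≤ 2 * f2 q p) :
    ps2 g (I :: t.map J) + ps2 f1 (P :: t) ≤ 2 * ps2 f2 (P :: t) := by
  have h1 := ps2_le3 J f1 f2 g t h
  have h2 := sum3 (fun q => f1 q P) (fun q => f2 q P) (fun q => g (J q) I) t h0
  simp only [ps2, List.map_map, Function.comp_def]
  omega

lemma ps2_choose {α : Type} (f : α → α → ℕ) (hf : ∀ a b, f a b ≤ 1) (t : List α) :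
    ps2 f t ≤ t.length.choose 2 := by
  induction t with
  | nil => simp [ps2]
  | cons a t ih =>
    have h1 : (t.map (fun y => f y a)).sum ≤ t.length := by
      have h2 := List.sum_le_card_nsmul (t.map (fun y => f y a)) 1 (by
        intro z hz
        obtain ⟨y, -, rfl⟩ := List.mem_map.1 hz
        exact hf y a)
      simpa using h2
    have h3 : (t.length + 1).choose 2 = t.length + t.length.choose 2 := by
      rw [Nat.choose_succ_succ' t.length 1, Nat.choose_one_right]
    simp only [ps2, List.length_cons]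
    rw [h3]
    omega

/-- the interval of a cell -/
noncomputable def JJ (x m p : ℕ) : ℕ × ℕ := (10000 * (cidx x m p - 1), 10000 * cidx x m p)

lemma ivs_eq (x m : ℕ) (t : List ℕ) : ivs m (t.map (cidx x m)) =
    (max (19999 * m - 10000 * (t.map (cidx x m)).sum) (10000 * ((t.map (cidx x m)).headD 0 - 1)),
      20001 * m + 10000 * (t.map (cidx x m)).length - 10000 * (t.map (cidx x m)).sum) ::
      t.map (JJ x m) := by
  unfold ivs
  rw [List.map_map]
  rfl

/-- sums of the logarithms over a list -/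
lemma log_list {t : List ℕ} (ht : ∀ p ∈ t, 0 < p) :
    Real.log (t.prod : ℕ) = (t.map (fun p : ℕ => Real.log p)).sum := by
  induction t with
  | nil => simp
  | cons a t ih =>
    have ha : (0 : ℝ) < a := by exact_mod_cast ht a List.mem_cons_self
    have hb : 0 < t.prod := List.prod_pos fun p hp => ht p (List.mem_cons_of_mem _ hp)
    have hb' : (0 : ℝ) < (t.prod : ℕ) := by exact_mod_cast hb
    rw [List.prod_cons, List.map_cons, List.sum_cons, Nat.cast_mul, Real.log_mul ha.ne' hb'.ne',
      ih fun p hp => ht p (List.mem_cons_of_mem _ hp)]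

lemma sum_up {t : List ℕ} {f : ℕ → ℝ} {g : ℕ → ℕ} (h : ∀ p ∈ t, f p ≤ 10000 * (g p : ℝ)) :
    (t.map f).sum ≤ 10000 * ((t.map g).sum : ℕ) := by
  induction t with
  | nil => simp
  | cons a t ih =>
    have h1 := h a List.mem_cons_self
    have h2 := ih fun p hp => h p (List.mem_cons_of_mem _ hp)
    simp only [List.map_cons, List.sum_cons]
    push_cast at h2 ⊢
    linarith

lemma sum_lo {t : List ℕ} {f : ℕ → ℝ} {g : ℕ → ℕ} (h : ∀ p ∈ t, 10000 * (g p : ℝ) - 10000 ≤ f p) :
    10000 * ((t.map g).sum : ℕ) - 10000 * (t.length : ℝ) ≤ (t.map f).sum := by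
  induction t with
  | nil => simp
  | cons a t ih =>
    have h1 := h a List.mem_cons_self
    have h2 := ih fun p hp => h p (List.mem_cons_of_mem _ hp)
    simp only [List.map_cons, List.sum_cons, List.length_cons]
    push_cast at h2 ⊢
    linarith

lemma sum_cst {t : List ℕ} {f : ℕ → ℝ} {B : ℝ} (h : ∀ p ∈ t, f p ≤ B) :
    (t.map f).sum ≤ t.length * B := by
  induction t with
  | nil => simp
  | cons a t ih =>
    have h1 := h a List.mem_cons_self
    have h2 := ih fun p hp => h p (List.mem_cons_of_mem _ hp)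
    simp only [List.map_cons, List.sum_cons, List.length_cons]
    push_cast
    linarith

theorem t_WB : S_WB := by
  intro hsrt m r hm hr3 hr7
  filter_upwards [eventually_ge_atTop 3] with x hx Q U V V1 hQ hU1 hU2 hV hV1 N hN0 hN1 hN2 hsq hro hw
  have hx0 : (0 : ℝ) < x := by
    have : 0 < x := by omega
    exact_mod_cast this
  have hx1 : (1 : ℝ) < x := by
    have : 1 < x := by omega
    exact_mod_cast this
  have hL : 0 < Real.log x := Real.log_pos hx1
  have hm0 : (0 : ℝ) < m := by exact_mod_cast hm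
  have hNne : N ≠ 1 := by
    rintro rfl
    unfold w at hw
    simp at hw
    omega
  obtain ⟨P, t, hpw, hpr, hN, hlen, hmem, hDn, hPn⟩ := hsrt N hsq hNne
  have htl : t.length = r - 1 := by omega
  -- the normalised logarithm
  set κ : ℝ := 10000 * m / Real.log x with hκ
  have hκ0 : 0 < κ := by positivity
  have hκL : κ * Real.log x = 10000 * m := by
    rw [hκ]
    field_simp
  set lg : ℕ → ℝ := fun p => κ * Real.log p with hlg
  have lg_mul : ∀ a b : ℕ, 0 < a → 0 < b → lg (a * b) = lg a + lg b := by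
    intro a b ha hb
    have ha' : (a : ℝ) ≠ 0 := by exact_mod_cast ha.ne'
    have hb' : (b : ℝ) ≠ 0 := by exact_mod_cast hb.ne'
    simp only [hlg]
    rw [Nat.cast_mul, Real.log_mul ha' hb']
    ring
  have lg_mono : ∀ a b : ℕ, 0 < a → a ≤ b → lg a ≤ lg b := by
    intro a b ha hab
    simp only [hlg]
    exact mul_le_mul_of_nonneg_left (Real.log_le_log (by exact_mod_cast ha) (by exact_mod_cast hab))
      hκ0.le
  have lg_lt : ∀ a b : ℕ, 0 < a → a < b → lg a < lg b := by
    intro a b ha hab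
    simp only [hlg]
    exact mul_lt_mul_of_pos_left (Real.log_lt_log (by exact_mod_cast ha) (by exact_mod_cast hab)) hκ0
  have hprt : ∀ p ∈ t, p.Prime := fun p hp => hpr p (List.mem_cons_of_mem _ hp)
  have hPp : P.Prime := hpr P List.mem_cons_self
  have hP0 := hPp.pos
  have ht0 : ∀ p ∈ t, 0 < p := fun p hp => (hprt p hp).pos
  have htp0 : 0 < t.prod := List.prod_pos ht0
  have hltP : ∀ p ∈ t, p < P := fun p hp => (List.pairwise_cons.1 hpw).1 p hp
  have lg_pos : ∀ p : ℕ, 1 ≤ p → 0 ≤ lg p := fun p hp =>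
    mul_nonneg hκ0.le (Real.log_nonneg (by exact_mod_cast hp))
  -- bounds of the cells
  have hcell : ∀ p ∈ t, 10000 * (cidx x m p : ℝ) - 10000 < lg p ∧ lg p ≤ 10000 * (cidx x m p : ℝ) ∧
      1 ≤ cidx x m p := by
    intro p hp
    have h1 := cidx_bounds (x := x) (m := m) (p := p) hm hL (hprt p hp).one_lt
    obtain ⟨h2, h3⟩ := h1
    have h4 := mul_lt_mul_of_pos_left h2 hκ0
    have h5 := mul_le_mul_of_nonneg_left h3 hκ0.le
    have e1 : κ * (((cidx x m p : ℝ) - 1) / m * Real.log x) = ((cidx x m p : ℝ) - 1) / m * (κ * Real.log x) := by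
      ring
    have e2 : κ * ((cidx x m p : ℝ) / m * Real.log x) = (cidx x m p : ℝ) / m * (κ * Real.log x) := by
      ring
    rw [e1, hκL] at h4
    rw [e2, hκL] at h5
    have e3 : ((cidx x m p : ℝ) - 1) / m * (10000 * m) = 10000 * (cidx x m p : ℝ) - 10000 := by
      field_simp
    have e4 : (cidx x m p : ℝ) / m * (10000 * m) = 10000 * (cidx x m p : ℝ) := by
      field_simp
    rw [e3] at h4
    rw [e4] at h5
    refine ⟨h4, h5, ?_⟩
    by_contra hcon
    have h6 : cidx x m p = 0 := by omega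
    rw [h6] at h5
    have h7 : 0 < lg p := mul_pos hκ0 (Real.log_pos (by exact_mod_cast (hprt p hp).one_lt))
    simp only [hlg] at h7
    norm_num at h5
    linarith
  -- the logarithm of `N`
  have hNlo : 19999 * (m : ℝ) ≤ lg N := by
    have := mul_le_mul_of_nonneg_left hN1 hκ0.le
    have e : κ * (19999 / 10000 * Real.log x) = 19999 / 10000 * (κ * Real.log x) := by ring
    rw [e, hκL] at this
    simp only [hlg]
    linarith
  have hNhi : lg N ≤ 20001 * (m : ℝ) := by
    have := mul_le_mul_of_nonneg_left hN2 hκ0.le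
    have e : κ * (20001 / 10000 * Real.log x) = 20001 / 10000 * (κ * Real.log x) := by ring
    rw [e, hκL] at this
    simp only [hlg]
    linarith
  have hsum : lg t.prod = (t.map lg).sum := by
    have h1 := log_list ht0
    have h2 : (t.map lg).sum = κ * (t.map (fun p : ℕ => Real.log p)).sum := by
      rw [← List.sum_map_mul_left]
    rw [h2, ← h1]
  have hNlg : lg N = lg P + (t.map lg).sum := by
    rw [hN, lg_mul P t.prod hP0 htp0, hsum]
  -- the parameters
  have hU0 : 0 < U := by
    have h1 : (0 : ℝ) < (x : ℝ) ^ (7 / 8 - 1 / 10000 : ℝ) := Real.rpow_pos_of_pos hx0 _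
    have h2 : (0 : ℝ) < U := lt_of_lt_of_le h1 hU1
    exact_mod_cast h2
  have hV0 : 0 < V := by
    have h1 : (0 : ℝ) < (x : ℝ) ^ (9 / 8 : ℝ) := Real.rpow_pos_of_pos hx0 _
    have h2 : (0 : ℝ) < V := lt_of_lt_of_le h1 hV
    exact_mod_cast h2
  have hUlo : 8749 * (m : ℝ) ≤ lg U := by
    have h1 := Real.log_le_log (Real.rpow_pos_of_pos hx0 _) hU1
    rw [Real.log_rpow hx0] at h1
    have h2 := mul_le_mul_of_nonneg_left h1 hκ0.le
    have e : κ * ((7 / 8 - 1 / 10000) * Real.log x) = (7 / 8 - 1 / 10000) * (κ * Real.log x) := by ring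
    rw [e, hκL] at h2
    simp only [hlg]
    linarith
  have hUhi : lg U ≤ 8750 * (m : ℝ) := by
    have h1 := Real.log_le_log (by exact_mod_cast hU0) hU2
    rw [Real.log_rpow hx0] at h1
    have h2 := mul_le_mul_of_nonneg_left h1 hκ0.le
    have e : κ * (7 / 8 * Real.log x) = 7 / 8 * (κ * Real.log x) := by ring
    rw [e, hκL] at h2
    simp only [hlg]
    linarith
  have hVlo : 11250 * (m : ℝ) ≤ lg V := by
    have h1 := Real.log_le_log (Real.rpow_pos_of_pos hx0 _) hV
    rw [Real.log_rpow hx0] at h1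
    have h2 := mul_le_mul_of_nonneg_left h1 hκ0.le
    have e : κ * (9 / 8 * Real.log x) = 9 / 8 * (κ * Real.log x) := by ring
    rw [e, hκL] at h2
    simp only [hlg]
    linarith
  have hV1hi : 0 < V1 → lg V1 ≤ 8751 * (m : ℝ) := by
    intro h0
    have h1 := Real.log_le_log (by exact_mod_cast h0) hV1
    rw [Real.log_rpow hx0] at h1
    have h2 := mul_le_mul_of_nonneg_left h1 hκ0.le
    have e : κ * ((7 / 8 + 1 / 10000) * Real.log x) = (7 / 8 + 1 / 10000) * (κ * Real.log x) := by ring
    rw [e, hκL] at h2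
    simp only [hlg]
    linarith
  have hlgP : ∀ p ∈ t, lg p ≤ lg P := fun p hp => lg_mono p P (ht0 p hp) (hltP p hp).le
  have hdvd : t.prod ∣ N := ⟨P, by rw [hN]; ring⟩
  refine ⟨t, htl, fun p hp => ?_, ?_, hdvd, ?_, ?_⟩
  · rw [mem_PQ (by omega)]
    refine ⟨hprt p hp, ?_, ?_⟩
    · exact hro.2 p (hprt p hp) (Nat.dvd_of_mem_primeFactors ((hmem p).1 (List.mem_cons_of_mem _ hp)))
    · have h1 : p * P ≤ N := by
        rw [hN, mul_comm]
        exact Nat.mul_le_mul_left P (Nat.le_of_dvd htp0 (List.dvd_prod hp))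
      have h2 := lg_mono (p * P) N (Nat.mul_pos (ht0 p hp) hP0) h1
      rw [lg_mul p P (ht0 p hp) hP0] at h2
      have h3 := hlgP p hp
      have h4 : lg p ≤ 10001 * m := by linarith
      have h5 : κ * Real.log p ≤ κ * (10001 / 10000 * Real.log x) := by
        have e : κ * (10001 / 10000 * Real.log x) = 10001 / 10000 * (κ * Real.log x) := by ring
        rw [e, hκL]
        simp only [hlg] at h4
        linarith
      exact le_of_mul_le_mul_left h5 hκ0
  · have h1 : (t.map lg).sum ≤ t.length * lg P := sum_cst hlgP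
    have h2 : (t.length : ℝ) ≤ 6 := by
      have : t.length ≤ 6 := by omega
      exact_mod_cast this
    have h3 : (t.length : ℝ) * lg P ≤ 6 * lg P := mul_le_mul_of_nonneg_right h2 (lg_pos P hP0)
    have h4 : lg t.prod ≤ 18000 * m := by
      rw [hsum]
      linarith
    have h5 : κ * Real.log (t.prod : ℕ) ≤ κ * (9 / 5 * Real.log x) := by
      have e : κ * (9 / 5 * Real.log x) = 9 / 5 * (κ * Real.log x) := by ring
      rw [e, hκL]
      simp only [hlg] at h4
      linarith
    exact le_of_mul_le_mul_left h5 hκ0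
  · have h1 : N / t.prod = P := by
      rw [hN]
      exact Nat.mul_div_cancel P htp0
    rw [h1]
    exact hPp
  -- the main inequality
  set l : List ℕ := t.map (cidx x m) with hl
  have hll : l.length = t.length := by rw [hl, List.length_map]
  have hsup : (t.map lg).sum ≤ 10000 * (l.sum : ℕ) := sum_up fun p hp => (hcell p hp).2.1
  have hslo : 10000 * (l.sum : ℕ) - 10000 * (t.length : ℝ) ≤ (t.map lg).sum :=
    sum_lo fun p hp => (hcell p hp).1.le
  -- the head of the list
  obtain ⟨p1, t', ht'⟩ : ∃ p1 t', t = p1 :: t' := by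
    cases t with
    | nil => simp at htl; omega
    | cons a s => exact ⟨a, s, rfl⟩
  have hp1 : p1 ∈ t := by rw [ht']; exact List.mem_cons_self
  have hhd : l.headD 0 = cidx x m p1 := by rw [hl, ht']; rfl
  obtain ⟨hc1, hc2, hc3⟩ := hcell p1 hp1
  have hokl : okl m l = true := by
    unfold okl
    rw [Bool.and_eq_true, decide_eq_true_eq, decide_eq_true_eq]
    constructor
    · rw [hl, List.pairwise_map]
      refine (List.pairwise_cons.1 hpw).2.imp_of_mem ?_
      intro a b ha hb hab
      exact cidx_mono (ht0 b hb) hL hab.le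
    · rw [hhd, hll]
      have h1 : (10000 : ℝ) * ((l.sum : ℕ) + (cidx x m p1 : ℕ)) < 20001 * m + 10000 * (t.length + 1) := by
        have h2 := hlgP p1 hp1
        linarith
      exact_mod_cast h1
  set I : ℕ × ℕ := (max (19999 * m - 10000 * l.sum) (10000 * (l.headD 0 - 1)),
      20001 * m + 10000 * l.length - 10000 * l.sum) with hI
  have hivs : ivs m l = I :: t.map (JJ x m) := ivs_eq x m t
  have hI1 : (I.1 : ℝ) ≤ lg P := by
    rw [hI]
    simp only
    rw [Nat.cast_max]
    apply max_le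
    · rcases le_total (19999 * m) (10000 * l.sum) with h | h
      · rw [Nat.sub_eq_zero_of_le h, Nat.cast_zero]
        exact lg_pos P hP0
      · rw [Nat.cast_sub h, Nat.cast_mul, Nat.cast_mul, Nat.cast_ofNat, Nat.cast_ofNat]
        linarith
    · rw [hhd]
      push_cast [Nat.cast_sub hc3]
      have := hlgP p1 hp1
      linarith
  have hI2 : lg P ≤ (I.2 : ℝ) := by
    rw [hI]
    simp only
    have h1 : lg P ≤ 20001 * m + 10000 * t.length - 10000 * (l.sum : ℕ) := by linarith
    have h2 : 10000 * l.sum ≤ 20001 * m + 10000 * l.length := by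
      have h3 := lg_pos P hP0
      have h4 : (10000 : ℝ) * (l.sum : ℕ) ≤ 20001 * m + 10000 * t.length := by linarith
      rw [hll]
      exact_mod_cast h4
    rw [Nat.cast_sub h2, hll, Nat.cast_add, Nat.cast_mul, Nat.cast_mul, Nat.cast_mul,
      Nat.cast_ofNat, Nat.cast_ofNat]
    linarith
  have hJ : ∀ p ∈ t, ((JJ x m p).1 : ℝ) < lg p ∧ lg p ≤ ((JJ x m p).2 : ℝ) := by
    intro p hp
    obtain ⟨h1, h2, h3⟩ := hcell p hp
    unfold JJ
    simp only
    push_cast [Nat.cast_sub h3]
    exact ⟨by linarith, by linarith⟩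
  -- comparison for one pair
  have hpd : ∀ (q p : ℕ) (a b : ℕ × ℕ), 0 < q → 0 < p → (a.1 : ℝ) < lg q → lg q ≤ a.2 →
      (b.1 : ℝ) ≤ lg p → lg p ≤ b.2 → (if q * p ≤ U ∧ V < q * q * p then 1 else 0) ≤ posd m a b := by
    intro q p a b hq hp h1 h2 h3 h4
    by_cases h : q * p ≤ U ∧ V < q * q * p
    · rw [if_pos h]
      have h5 := lg_mono (q * p) U (Nat.mul_pos hq hp) h.1
      have h6 := lg_lt V (q * q * p) hV0 h.2
      rw [lg_mul q p hq hp] at h5
      rw [lg_mul (q * q) p (Nat.mul_pos hq hq) hp, lg_mul q q hq hq] at h6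
      unfold posd
      rw [if_pos]
      constructor
      · have h7 : (a.1 : ℝ) + b.1 < 8750 * m := by linarith
        exact_mod_cast h7
      · have h7 : (11250 : ℝ) * m < 2 * a.2 + b.2 := by linarith
        exact_mod_cast h7
    · rw [if_neg h]
      exact Nat.zero_le _
  have hvd : ∀ (q p : ℕ) (a b : ℕ × ℕ), 0 < q → 0 < p → lg q ≤ a.2 → lg p ≤ b.2 →
      vv m a b + (if q * p ≤ U ∧ V < q * q * p then 1 else 0) ≤ 2 * (if q * p ≤ U then 1 else 0) := by
    intro q p a b hq hp h2 h4
    unfold vv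
    by_cases h : a.2 + b.2 ≤ 8749 * m
    · rw [if_pos h]
      have h5 : q * p ≤ U := by
        by_contra hcon
        push Not at hcon
        have h6 := lg_lt U (q * p) hU0 hcon
        rw [lg_mul q p hq hp] at h6
        have h7 : ((a.2 : ℝ)) + b.2 ≤ 8749 * m := by exact_mod_cast h
        linarith
      rw [if_pos h5]
      by_cases h' : 2 * a.2 + b.2 ≤ 11250 * m
      · rw [if_pos h', if_neg]
        rintro ⟨-, h8⟩
        have h9 := lg_lt V (q * q * p) hV0 h8
        rw [lg_mul (q * q) p (Nat.mul_pos hq hq) hp, lg_mul q q hq hq] at h9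
        have h10 : 2 * (a.2 : ℝ) + b.2 ≤ 11250 * m := by exact_mod_cast h'
        linarith
      · rw [if_neg h']
        split_ifs <;> omega
    · rw [if_neg h]
      by_cases h5 : q * p ≤ U
      · rw [if_pos h5]
        split_ifs <;> omega
      · rw [if_neg h5, if_neg (fun h6 => h5 h6.1)]
  have hDle : Dn U V N ≤ ps2 (posd m) (ivs m l) := by
    rw [hDn, hivs]
    refine ps2_cons_le (JJ x m) _ _ t P I (fun q hq => ?_) (fun p hp q hq => ?_)
    · exact hpd q P _ _ (ht0 q hq) hP0 (hJ q hq).1 (hJ q hq).2 hI1 hI2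
    · exact hpd q p _ _ (ht0 q hq) (ht0 p hp) (hJ q hq).1 (hJ q hq).2 (hJ p hp).1.le (hJ p hp).2
  have hVle : ps2 (vv m) (ivs m l) + Dn U V N ≤ 2 * Pn U N := by
    rw [hDn, hPn, hivs]
    refine ps2_cons_le3 (JJ x m) _ _ _ t P I (fun q hq => ?_) (fun p hp q hq => ?_)
    · exact hvd q P _ _ (ht0 q hq) hP0 (hJ q hq).2 hI2
    · exact hvd q p _ _ (ht0 q hq) (ht0 p hp) (hJ q hq).2 (hJ p hp).2
  have hDch : Dn U V N ≤ r.choose 2 := by
    rw [hDn]
    have h1 := ps2_choose (fun q p : ℕ => if q * p ≤ U ∧ V < q * q * p then 1 else 0)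
      (fun a b => by split_ifs <;> omega) (P :: t)
    rw [List.length_cons, hlen, hw] at h1
    exact h1
  have hW : W5 Q U V V1 N = 2 * pi3 Q V1 N + Dn U V N + (if r = 5 then 14 - 2 * (Pn U N : ℝ) else 0) +
      (if r = 7 then 20 else 0) := by
    unfold W5
    rw [if_pos ⟨hsq, hro, by omega⟩, hw]
  have hpi : pi3 Q V1 N = if w N = 3 ∧ ∀ p ∈ N.primeFactors, p ≤ V1 then 1 else 0 := pi3_w hsq hro
  rw [hw] at hpi
  rw [hW]
  unfold wr
  by_cases h3 : r = 3
  · -- three primes
    rw [if_pos h3, if_neg (show ¬ r = 5 by omega), if_neg (show ¬ r = 7 by omega)]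
    unfold wF
    rw [if_pos hokl]
    subst h3
    obtain ⟨p2, t'', ht''⟩ : ∃ p2 t'', t' = p2 :: t'' := by
      cases t' with
      | nil => rw [ht'] at htl; simp at htl
      | cons a s => exact ⟨a, s, rfl⟩
    have ht3 : t'' = [] := by
      rw [ht', ht'', List.length_cons, List.length_cons] at htl
      exact List.eq_nil_of_length_eq_zero (by omega)
    subst ht3 ht''
    have hp2 : p2 ∈ t := by rw [ht']; simp
    have h10 := ht0 p1 hp1
    have h20 := ht0 p2 hp2
    have hlg3 : lg N = lg P + lg p1 + lg p2 := by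
      rw [hNlg, ht']
      simp
      ring
    have h12 : p2 < p1 := by
      have h := (List.pairwise_cons.1 hpw).2
      rw [ht'] at h
      exact (List.pairwise_cons.1 h).1 p2 (by simp)
    have hD3 : Dn U V N = (if p1 * P ≤ U ∧ V < p1 * p1 * P then 1 else 0) +
        (if p2 * P ≤ U ∧ V < p2 * p2 * P then 1 else 0) +
        (if p2 * p1 ≤ U ∧ V < p2 * p2 * p1 then 1 else 0) := by
      rw [hDn, ht']
      simp [ps2]
    have hnot1 : ¬ p1 * P ≤ U := by
      intro h
      have h1 := lg_mono _ _ (Nat.mul_pos h10 hP0) h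
      rw [lg_mul p1 P h10 hP0] at h1
      have h2 := hlgP p1 hp1
      have h3 := lg_mono p2 p1 h20 h12.le
      linarith
    by_cases hpv : ∀ p ∈ N.primeFactors, p ≤ V1
    · rw [hpi, if_pos ⟨rfl, hpv⟩]
      have hPV : P ≤ V1 := hpv P ((hmem P).1 List.mem_cons_self)
      have hV10 : 0 < V1 := hP0.trans_le hPV
      have h4 := hV1hi hV10
      have h5 := lg_mono P V1 hP0 hPV
      have hc : 19999 * m ≤ 8751 * m + 10000 * l.sum := by
        have h6 : (19999 : ℝ) * m ≤ 8751 * m + 10000 * (l.sum : ℕ) := by linarith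
        exact_mod_cast h6
      rw [if_pos hc]
      have hq1 : lg p1 ≤ lg V1 := lg_mono p1 V1 h10 ((hltP p1 hp1).le.trans hPV)
      have hD0 : Dn U V N = 0 := by
        rw [hD3, if_neg (fun h => hnot1 h.1), if_neg, if_neg]
        · rintro ⟨h, -⟩
          have h1 := lg_mono _ _ (Nat.mul_pos h20 h10) h
          rw [lg_mul p2 p1 h20 h10] at h1
          linarith
        · rintro ⟨h, -⟩
          have h1 := lg_mono _ _ (Nat.mul_pos h20 hP0) h
          rw [lg_mul p2 P h20 hP0] at h1
          linarith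
      rw [hD0]
      norm_num
    · rw [hpi, if_neg (fun h => hpv h.2)]
      by_cases hc : 19999 * m ≤ 8751 * m + 10000 * l.sum
      · rw [if_pos hc]
        have h5 : Dn U V N ≤ 2 := by
          rw [hD3, if_neg (fun h => hnot1 h.1)]
          split_ifs <;> omega
        have h6 : (Dn U V N : ℝ) ≤ 2 := by exact_mod_cast h5
        push_cast
        linarith
      · rw [if_neg hc]
        have h6 : (Dn U V N : ℝ) ≤ (ps2 (posd m) (ivs m l) : ℕ) := by exact_mod_cast hDle
        linarith
  rw [if_neg h3]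
  have hpi0 : pi3 Q V1 N = 0 := by rw [hpi, if_neg (fun h => h3 h.1)]
  rw [hpi0]
  by_cases h5 : r = 5
  · rw [if_pos h5, if_pos h5, if_neg (show ¬ r = 7 by omega)]
    unfold wE
    rw [if_pos hokl]
    have h6 : ((ps2 (vv m) (ivs m l) : ℕ) : ℝ) + Dn U V N ≤ 2 * Pn U N := by exact_mod_cast hVle
    have h7 : (14 : ℝ) - (ps2 (vv m) (ivs m l) : ℕ) ≤ ((14 - ps2 (vv m) (ivs m l) : ℕ) : ℝ) := by
      rcases le_total (ps2 (vv m) (ivs m l)) 14 with h | h
      · rw [Nat.cast_sub h]
        norm_num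
      · rw [Nat.sub_eq_zero_of_le h]
        have : (14 : ℝ) ≤ (ps2 (vv m) (ivs m l) : ℕ) := by exact_mod_cast h
        push_cast
        linarith
    linarith
  rw [if_neg h5, if_neg h5]
  by_cases h7 : r = 7
  · rw [if_pos h7, if_pos h7]
    unfold wG
    rw [if_pos hokl]
    have h8 : Dn U V N ≤ 21 := by
      rw [h7] at hDch
      exact hDch
    have h9 : (Dn U V N : ℝ) ≤ 21 := by exact_mod_cast h8
    push_cast
    linarith
  · rw [if_neg h7, if_neg h7]
    unfold wD
    rw [if_pos hokl]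
    have h6 : (Dn U V N : ℝ) ≤ (ps2 (posd m) (ivs m l) : ℕ) := by exact_mod_cast hDle
    linarith

end Pool.Agent.H568.LB.PWB
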