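import Mathlib
import Pool.Agent.H568.LB.Stm

/-!
# LB, task TUP: sums over tuples of primes and sums over cells (helper253)
-/

set_option autoImplicit false

open Finset Filter Topology Pool.Agent.H568 Pool.Agent.H568.LB

namespace Pool.Agent.H568.LB.PTUP

lemma log_fourth {x Q p : ℕ} (hx : 1 ≤ x) (hQ : (x : ℝ) ^ (1 / 4 : ℝ) ≤ Q) (hp : Q < p) :
    1 / 4 * Real.log x < Real.log p := by
  have hx0 : (0 : ℝ) < x := by exact_mod_cast hx
  have h1 : (x : ℝ) ^ (1 / 4 : ℝ) < p := hQ.trans_lt (by exact_mod_cast hp)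
  have h2 := Real.log_lt_log (Real.rpow_pos_of_pos hx0 _) h1
  rwa [Real.log_rpow hx0] at h2

lemma PQ_idx4 {x Q m a0 a1 : ℕ} {u : ℝ} (hx : 1 < x) (h0 : 4 * a0 = m) (hm : 0 < m) (hu : u * m ≤ a1)
    (hQ : (x : ℝ) ^ (1 / 4 : ℝ) ≤ Q) : ∀ p ∈ PQ x Q u, p.Prime ∧ a0 < cidx x m p ∧ cidx x m p ≤ a1 := by
  intro p hp
  rw [mem_PQ hx.le] at hp
  obtain ⟨h1, h2, h3⟩ := hp
  have hL : 0 < Real.log x := Real.log_pos (by exact_mod_cast hx)
  have hm0 : (0 : ℝ) < m := by exact_mod_cast hm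
  have h4 := log_fourth hx.le hQ h2
  have h5 : (4 : ℝ) * a0 = m := by exact_mod_cast h0
  refine ⟨h1, ?_, ?_⟩
  · unfold cidx
    rw [Nat.lt_ceil, lt_div_iff₀ hL]
    nlinarith
  · unfold cidx
    rw [Nat.ceil_le, div_le_iff₀ hL]
    calc (m : ℝ) * Real.log p ≤ m * (u * Real.log x) := mul_le_mul_of_nonneg_left h3 hm0.le
      _ = (u * m) * Real.log x := by ring
      _ ≤ a1 * Real.log x := mul_le_mul_of_nonneg_right hu hL.le

/-- sums over tuples -/
noncomputable def ps (P : Finset ℕ) (G : List ℕ → ℝ) : ℕ → List ℕ → ℝ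
  | 0, t => G t
  | k + 1, t => ∑ p ∈ P, 1 / (p : ℝ) * ps P G k (p :: t)

/-- the lists of length `k` with entries in `P` -/
def LL (P : Finset ℕ) : ℕ → Finset (List ℕ)
  | 0 => {[]}
  | k + 1 => (P ×ˢ LL P k).image fun t => t.2 ++ [t.1]

lemma mem_LL {P : Finset ℕ} : ∀ (k : ℕ) (t : List ℕ), t.length = k → (∀ p ∈ t, p ∈ P) → t ∈ LL P k
  | 0, t, h, _ => by
      rw [List.length_eq_zero_iff] at h
      subst h
      exact mem_singleton_self _
  | k + 1, t, h, hP => by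
      have hne : t ≠ [] := by
        rintro rfl
        simp at h
      have e := List.dropLast_append_getLast hne
      rw [← e]
      refine mem_image.2 ⟨(t.getLast hne, t.dropLast), ?_, rfl⟩
      rw [mem_product]
      refine ⟨hP _ (List.getLast_mem hne), mem_LL k _ ?_ fun p hp => hP p (List.mem_of_mem_dropLast hp)⟩
      rw [List.length_dropLast, h]
      rfl

lemma sum_LL (P : Finset ℕ) (G : List ℕ → ℝ) : ∀ (k : ℕ) (s : List ℕ),
    ∑ t ∈ LL P k, G (t ++ s) / ((t.prod : ℕ) : ℝ) = ps P G k s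
  | 0, s => by
      show ∑ t ∈ {[]}, G (t ++ s) / ((t.prod : ℕ) : ℝ) = G s
      rw [sum_singleton, List.nil_append, List.prod_nil, Nat.cast_one, div_one]
  | k + 1, s => by
      show ∑ t ∈ (P ×ˢ LL P k).image (fun t => t.2 ++ [t.1]), G (t ++ s) / ((t.prod : ℕ) : ℝ) =
        ∑ p ∈ P, 1 / (p : ℝ) * ps P G k (p :: s)
      rw [sum_image, sum_product]
      · refine sum_congr rfl fun p _ => ?_
        rw [← sum_LL P G k (p :: s), mul_sum]
        refine sum_congr rfl fun t _ => ?_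
        show G (t ++ [p] ++ s) / (((t ++ [p]).prod : ℕ) : ℝ) = _
        rw [List.append_assoc, List.singleton_append, List.prod_append, List.prod_singleton]
        push_cast
        rw [div_mul_eq_div_div, one_div, inv_mul_eq_div]
      · rintro ⟨p, t⟩ _ ⟨q, t'⟩ _ h
        have h1 := List.append_inj' (h : t ++ [p] = t' ++ [q]) rfl
        rw [List.singleton_inj] at h1
        exact Prod.ext h1.2 h1.1

lemma ps_le {x m a0 a1 : ℕ} {P : Finset ℕ}
    (hP : ∀ f : ℕ → ℕ, ∑ p ∈ P, (f (cidx x m p) : ℝ) / p ≤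
      ((∑ c ∈ Ioc a0 a1, f c * lamN c : ℕ) : ℝ) / 10 ^ 8) (F : List ℕ → ℕ) :
    ∀ (k : ℕ) (t : List ℕ), ps P (fun t => (F (t.map (cidx x m)) : ℝ)) k t ≤
      (cs a0 a1 F k (t.map (cidx x m)) : ℝ) / 10 ^ (8 * k)
  | 0, t => by
      show (F (t.map (cidx x m)) : ℝ) ≤ (F (t.map (cidx x m)) : ℝ) / 10 ^ (8 * 0)
      rw [mul_zero, pow_zero, div_one]
  | k + 1, t => by
      show ∑ p ∈ P, 1 / (p : ℝ) * ps P (fun t => (F (t.map (cidx x m)) : ℝ)) k (p :: t) ≤
        ((∑ c ∈ Ioc a0 a1, lamN c * cs a0 a1 F k (c :: t.map (cidx x m)) : ℕ) : ℝ) / 10 ^ (8 * (k + 1))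
      have h1 : ∑ p ∈ P, 1 / (p : ℝ) * ps P (fun t => (F (t.map (cidx x m)) : ℝ)) k (p :: t) ≤
          ∑ p ∈ P, 1 / 10 ^ (8 * k) *
            ((cs a0 a1 F k (cidx x m p :: t.map (cidx x m)) : ℝ) / p) := by
        refine sum_le_sum fun p _ => ?_
        have h2 := ps_le hP F k (p :: t)
        rw [List.map_cons] at h2
        calc 1 / (p : ℝ) * ps P (fun t => (F (t.map (cidx x m)) : ℝ)) k (p :: t)
            ≤ 1 / (p : ℝ) * ((cs a0 a1 F k (cidx x m p :: t.map (cidx x m)) : ℝ) / 10 ^ (8 * k)) :=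
              mul_le_mul_of_nonneg_left h2 (by positivity)
          _ = _ := by ring
      refine h1.trans ?_
      rw [← mul_sum]
      have h3 := hP (fun c => cs a0 a1 F k (c :: t.map (cidx x m)))
      calc 1 / 10 ^ (8 * k) * ∑ p ∈ P, ((cs a0 a1 F k (cidx x m p :: t.map (cidx x m)) : ℝ) / p)
          ≤ 1 / 10 ^ (8 * k) * (((∑ c ∈ Ioc a0 a1,
              cs a0 a1 F k (c :: t.map (cidx x m)) * lamN c : ℕ) : ℝ) / 10 ^ 8) :=
            mul_le_mul_of_nonneg_left h3 (by positivity)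
        _ = _ := by
            have e : ∑ c ∈ Ioc a0 a1, cs a0 a1 F k (c :: t.map (cidx x m)) * lamN c =
                ∑ c ∈ Ioc a0 a1, lamN c * cs a0 a1 F k (c :: t.map (cidx x m)) :=
              sum_congr rfl fun c _ => mul_comm _ _
            rw [e, show 8 * (k + 1) = 8 * k + 8 by ring, pow_add]
            ring

lemma log_prod_le {x m : ℕ} (hm : 0 < m) (hL : 0 < Real.log x) : ∀ t : List ℕ,
    (∀ p ∈ t, p.Prime) → 0 < t.prod ∧ Real.log ((t.prod : ℕ) : ℝ) ≤
      (((t.map (cidx x m)).sum : ℕ) : ℝ) / m * Real.log x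
  | [], _ => by simp
  | p :: t, h => by
      obtain ⟨h1, h2⟩ := log_prod_le hm hL t fun q hq => h q (List.mem_cons_of_mem _ hq)
      have hp := h p List.mem_cons_self
      have b := (cidx_bounds (x := x) (m := m) (p := p) hm hL hp.one_lt).2
      have hp0 : (0 : ℝ) < p := by exact_mod_cast hp.pos
      have ht0 : (0 : ℝ) < (t.prod : ℕ) := by exact_mod_cast h1
      rw [List.prod_cons, List.map_cons, List.sum_cons]
      refine ⟨Nat.mul_pos hp.pos h1, ?_⟩
      rw [Nat.cast_mul, Nat.cast_add, Real.log_mul hp0.ne' ht0.ne', add_div, add_mul]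
      exact add_le_add b h2

theorem t_TUP : S_TUP := by
  intro m a0 a1 k u W hm ha0 h0 hu hW
  filter_upwards [grid1 m a0 a1 hm ha0, eventually_ge_atTop 2] with x hx hx2 Q hQ S wt hS
  have hL : 0 < Real.log x := Real.log_pos (by exact_mod_cast (by omega : 1 < x))
  have hidx := PQ_idx4 (x := x) (Q := Q) (m := m) (a0 := a0) (a1 := a1) (u := u) (by omega) h0 hm hu hQ
  have key : ∀ t ∈ S, wt t / ((t.prod : ℕ) * (19999 / 10000 * Real.log x - Real.log (t.prod : ℕ))) ≤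
      1 / 10 ^ 6 / Real.log x * (((W (t.map (cidx x m)) * gN m (t.map (cidx x m)).sum : ℕ) : ℝ) /
        ((t.prod : ℕ) : ℝ)) := by
    intro t ht
    obtain ⟨s1, s2, s3, s4⟩ := hS t ht
    obtain ⟨p1, p2⟩ := log_prod_le hm hL t fun p hp => (hidx p (s2 p hp)).1
    have hp0 : (0 : ℝ) < (t.prod : ℕ) := by exact_mod_cast p1
    by_cases hW0 : W (t.map (cidx x m)) = 0
    · rw [hW0, Nat.cast_zero] at s4
      rw [le_antisymm s4 s3, zero_div]
      positivity
    · obtain ⟨g1, g2⟩ := gN_ge hm (hW _ (by rw [List.length_map, s1]) hW0) hL p2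
      calc wt t / ((t.prod : ℕ) * (19999 / 10000 * Real.log x - Real.log (t.prod : ℕ)))
          = wt t * (1 / (19999 / 10000 * Real.log x - Real.log (t.prod : ℕ))) / (t.prod : ℕ) := by
            rw [mul_one_div, div_div, mul_comm ((t.prod : ℕ) : ℝ)]
        _ ≤ (W (t.map (cidx x m)) : ℝ) * ((gN m (t.map (cidx x m)).sum : ℝ) / 10 ^ 6 / Real.log x) /
            (t.prod : ℕ) :=
            div_le_div_of_nonneg_right (mul_le_mul s4 g1 (by positivity) (Nat.cast_nonneg _)) hp0.le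
        _ = _ := by
            push_cast
            ring
  refine (sum_le_sum key).trans ?_
  rw [← mul_sum]
  have h2 : ∑ t ∈ S, (((W (t.map (cidx x m)) * gN m (t.map (cidx x m)).sum : ℕ) : ℝ) /
      ((t.prod : ℕ) : ℝ)) ≤ ∑ t ∈ LL (PQ x Q u) k,
      (((W (t.map (cidx x m)) * gN m (t.map (cidx x m)).sum : ℕ) : ℝ) / ((t.prod : ℕ) : ℝ)) :=
    sum_le_sum_of_subset_of_nonneg (fun t ht => mem_LL k t (hS t ht).1 (hS t ht).2.1)
      fun t _ _ => by positivity
  have h3 := sum_LL (PQ x Q u)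
    (fun t => ((fun l : List ℕ => W l * gN m l.sum) (t.map (cidx x m)) : ℝ)) k []
  have h4 := ps_le (x := x) (m := m) (fun f => hx f (PQ x Q u) hidx)
    (fun l => W l * gN m l.sum) k []
  rw [List.map_nil] at h4
  simp only [List.append_nil] at h3
  calc 1 / 10 ^ 6 / Real.log x * ∑ t ∈ S, (((W (t.map (cidx x m)) *
        gN m (t.map (cidx x m)).sum : ℕ) : ℝ) / ((t.prod : ℕ) : ℝ))
      ≤ 1 / 10 ^ 6 / Real.log x * ((cs a0 a1 (fun l => W l * gN m l.sum) k [] : ℝ) /
        10 ^ (8 * k)) := by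
        refine mul_le_mul_of_nonneg_left (h2.trans ?_) (by positivity)
        exact h3.le.trans h4
    _ = _ := by
        rw [pow_add]
        ring

end Pool.Agent.H568.LB.PTUP
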